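import Mathlib

/-!
# The Mandelbrot set for pairs of linear maps
-/

set_option autoImplicit false

namespace Pool.Agent.R222.Mand

/-- The attractor `A(q) = {∑ σ_k q ^ k : σ_k ∈ {0, 1}}` of the maps `z ↦ q z`, `z ↦ q z + 1`. -/
def attractor (q : ℂ) : Set ℂ :=
  {z | ∃ σ : ℕ → ℂ, (∀ k, σ k = 0 ∨ σ k = 1) ∧ z = ∑' k, σ k * q ^ k}

/-- The Mandelbrot set for pairs of linear maps: the parameters `q` in the open unit disc for which
the attractor `A(q)` is connected. -/
def mandelbrotPairs : Set ℂ := {q | ‖q‖ < 1 ∧ IsConnected (attractor q)}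

end Pool.Agent.R222.Mand
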