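import Mathlib
import Pool.Agent.R222.Mand.Defs

set_option autoImplicit false

open Set Filter Topology

namespace Pool.Agent.R222.Mand

/-- the coding map -/
noncomputable def code (q : ℂ) (b : ℕ → Bool) : ℂ := ∑' k, (if b k then (1:ℂ) else 0) * q ^ k

variable {q : ℂ}

lemma norm_term_le (q : ℂ) (b : ℕ → Bool) (k : ℕ) :
    ‖(if b k then (1:ℂ) else 0) * q ^ k‖ ≤ ‖q‖ ^ k := by
  rw [norm_mul, norm_pow]
  have : ‖(if b k then (1:ℂ) else 0)‖ ≤ 1 := by split_ifs <;> simp
  calc _ ≤ 1 * ‖q‖ ^ k := mul_le_mul_of_nonneg_right this (by positivity)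
    _ = _ := one_mul _

lemma summable_code (hq : ‖q‖ < 1) (b : ℕ → Bool) :
    Summable fun k => (if b k then (1:ℂ) else 0) * q ^ k :=
  Summable.of_norm_bounded (summable_geometric_of_lt_one (norm_nonneg _) hq) (norm_term_le q b)

lemma attractor_eq_range (q : ℂ) : attractor q = range (code q) := by
  ext z
  constructor
  · rintro ⟨σ, hσ, rfl⟩
    classical
    refine ⟨fun k => decide (σ k = 1), ?_⟩
    unfold code
    refine tsum_congr fun k => ?_
    rcases hσ k with h | h <;> simp [h]
  · rintro ⟨b, rfl⟩
    refine ⟨fun k => if b k then 1 else 0, fun k => ?_, rfl⟩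
    by_cases h : b k <;> simp [h]

lemma continuous_code (hq : ‖q‖ < 1) : Continuous (code q) := by
  unfold code
  refine continuous_tsum (fun k => ?_) (summable_geometric_of_lt_one (norm_nonneg _) hq)
    (fun k b => norm_term_le q b k)
  refine Continuous.mul ?_ continuous_const
  have : Continuous fun c : Bool => if c then (1:ℂ) else 0 := continuous_of_discreteTopology
  exact this.comp (continuous_apply k)

/-- prepend a digit -/
def cons (c : Bool) (b : ℕ → Bool) : ℕ → Bool
  | 0 => c
  | n + 1 => b n

lemma code_cons (hq : ‖q‖ < 1) (c : Bool) (b : ℕ → Bool) :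
    code q (cons c b) = (if c then 1 else 0) + q * code q b := by
  unfold code
  rw [(summable_code hq (cons c b)).tsum_eq_zero_add]
  simp only [cons, pow_zero, mul_one]
  congr 1
  rw [← tsum_mul_left]
  refine tsum_congr fun k => ?_
  rw [pow_succ, mul_comm (q ^ k) q, ← mul_assoc, ← mul_assoc, mul_comm q]
  rfl

lemma exists_cons (b : ℕ → Bool) : b = cons (b 0) (fun n => b (n + 1)) := by
  funext n
  cases n <;> rfl

/-- From a connected attractor one gets a power series with coefficients in `{-1,0,1}`. -/
lemma exists_series (h : q ∈ mandelbrotPairs) :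
    ∃ a : ℕ → ℤ, a 0 = 1 ∧ (∀ k, a k = -1 ∨ a k = 0 ∨ a k = 1) ∧ ∑' k, (a k : ℂ) * q ^ k = 0 := by
  obtain ⟨hq, hconn⟩ := h
  rw [attractor_eq_range] at hconn
  have hcl : ∀ c : Bool, IsClosed (code q '' (range (cons c))) := by
    intro c
    have : IsCompact (range (cons c)) := by
      have hc : Continuous (cons c) := by
        refine continuous_pi fun n => ?_
        cases n with
        | zero => exact continuous_const
        | succ n => exact continuous_apply n
      exact isCompact_range hc
    exact (this.image (continuous_code hq)).isClosed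
  have hpre := isPreconnected_closed_iff.1 hconn.isPreconnected (code q '' (range (cons true)))
    (code q '' (range (cons false))) (hcl true) (hcl false) (by
      rintro _ ⟨b, rfl⟩
      by_cases hb : b 0 = true
      · exact Or.inl ⟨b, ⟨fun n => b (n + 1), by rw [← hb]; exact (exists_cons b).symm⟩, rfl⟩
      · rw [Bool.not_eq_true] at hb
        exact Or.inr ⟨b, ⟨fun n => b (n + 1), by rw [← hb]; exact (exists_cons b).symm⟩, rfl⟩)
    (by
      refine ⟨code q (cons true fun _ => false), ⟨_, rfl⟩, ⟨_, ⟨_, rfl⟩, rfl⟩⟩)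
    (by
      refine ⟨code q (cons false fun _ => false), ⟨_, rfl⟩, ⟨_, ⟨_, rfl⟩, rfl⟩⟩)
  obtain ⟨z, _, ⟨_, ⟨s, rfl⟩, hs⟩, ⟨_, ⟨t, rfl⟩, ht⟩⟩ := hpre
  refine ⟨fun k => (if cons true s k then 1 else 0) - (if cons false t k then 1 else 0), ?_, ?_, ?_⟩
  · simp [cons]
  · intro k
    by_cases h1 : cons true s k = true <;> by_cases h2 : cons false t k = true <;> simp [h1, h2]
  · have h1 : ∀ k, (((if cons true s k then 1 else 0) - (if cons false t k then 1 else 0) : ℤ) : ℂ)
        * q ^ k = (if cons true s k then (1:ℂ) else 0) * q ^ k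
          - (if cons false t k then (1:ℂ) else 0) * q ^ k := by
      intro k
      push_cast
      ring
    simp_rw [h1]
    rw [(summable_code hq _).tsum_sub (summable_code hq _)]
    change code q (cons true s) - code q (cons false t) = 0
    rw [hs, ht, sub_self]

lemma code_diff (hq : ‖q‖ < 1) (n : ℕ) (b b' : ℕ → Bool) (h : ∀ k < n, b k = b' k) :
    ‖code q b - code q b'‖ ≤ ‖q‖ ^ n * (2 / (1 - ‖q‖)) := by
  induction n generalizing b b' with
  | zero =>
    have h1 : ∀ b, ‖code q b‖ ≤ 1 / (1 - ‖q‖) := by
      intro b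
      unfold code
      refine tsum_of_norm_bounded ?_ (norm_term_le q b)
      have := hasSum_geometric_of_lt_one (norm_nonneg _) hq
      rwa [← one_div] at this
    calc ‖code q b - code q b'‖ ≤ ‖code q b‖ + ‖code q b'‖ := norm_sub_le _ _
      _ ≤ 1 / (1 - ‖q‖) + 1 / (1 - ‖q‖) := add_le_add (h1 _) (h1 _)
      _ = _ := by rw [pow_zero, one_mul]; ring
  | succ n ih =>
    rw [exists_cons b, exists_cons b', code_cons hq, code_cons hq, h 0 (by omega)]
    rw [add_sub_add_left_eq_sub, ← mul_sub, norm_mul]
    have := ih (fun k => b (k + 1)) (fun k => b' (k + 1)) (fun k hk => h (k + 1) (by omega))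
    calc ‖q‖ * _ ≤ ‖q‖ * (‖q‖ ^ n * (2 / (1 - ‖q‖))) := mul_le_mul_of_nonneg_left this (norm_nonneg _)
      _ = _ := by rw [pow_succ]; ring

/-- A predicate on codes that depends on finitely many digits and respects the coding map is
constant, when the two pieces of the attractor meet. -/
lemma const_pred (hq : ‖q‖ < 1) {s t : ℕ → Bool} (hst : code q (cons true s) = code q (cons false t))
    (n : ℕ) (χ : (ℕ → Bool) → Prop) (h1 : ∀ b b', (∀ k < n, b k = b' k) → (χ b ↔ χ b'))
    (h2 : ∀ b b', code q b = code q b' → (χ b ↔ χ b')) : ∀ b b', χ b ↔ χ b' := by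
  induction n generalizing χ with
  | zero => exact fun b b' => h1 b b' (fun k hk => absurd hk (by omega))
  | succ n ih =>
    have hc : ∀ c : Bool, ∀ b b', χ (cons c b) ↔ χ (cons c b') := by
      intro c
      refine ih (fun b => χ (cons c b)) (fun b b' hbb => h1 _ _ fun k hk => ?_)
        (fun b b' hbb => h2 _ _ ?_)
      · cases k with
        | zero => rfl
        | succ k => exact hbb k (by omega)
      · rw [code_cons hq, code_cons hq, hbb]
    have hmid : χ (cons true s) ↔ χ (cons false t) := h2 _ _ hst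
    have hall : ∀ b, χ b ↔ χ (cons true s) := by
      intro b
      rw [exists_cons b]
      by_cases hb : b 0 = true
      · rw [hb]; exact hc true _ _
      · rw [Bool.not_eq_true] at hb
        rw [hb, hmid]; exact hc false _ _
    exact fun b b' => (hall b).trans (hall b').symm

/-- A power series with coefficients in `{-1,0,1}` vanishing at `q` makes the attractor
connected. -/
lemma mem_of_series (hq : ‖q‖ < 1) (a : ℕ → ℤ) (h0 : a 0 = 1)
    (ha : ∀ k, a k = -1 ∨ a k = 0 ∨ a k = 1) (hz : ∑' k, (a k : ℂ) * q ^ k = 0) :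
    q ∈ mandelbrotPairs := by
  refine ⟨hq, ?_⟩
  rw [attractor_eq_range]
  set s : ℕ → Bool := fun k => decide (a (k + 1) = 1) with hs
  set t : ℕ → Bool := fun k => decide (a (k + 1) = -1) with ht
  have hst : code q (cons true s) = code q (cons false t) := by
    rw [← sub_eq_zero]
    unfold code
    rw [← (summable_code hq _).tsum_sub (summable_code hq _)]
    refine Eq.trans (tsum_congr fun k => ?_) hz
    rw [← sub_mul]
    congr 1
    cases k with
    | zero => simp [cons, h0]
    | succ k =>
      simp only [cons, hs, ht]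
      rcases ha (k + 1) with h | h | h <;> simp [h]
  refine ⟨⟨code q fun _ => false, mem_range_self _⟩, ?_⟩
  rw [isPreconnected_closed_iff]
  intro U V hU hV hcov hneU hneV
  by_contra hcon
  rw [Set.not_nonempty_iff_eq_empty] at hcon
  have hcomp : IsCompact (range (code q)) := isCompact_range (continuous_code hq)
  have hdis : Disjoint (range (code q) ∩ U) (range (code q) ∩ V) := by
    rw [Set.disjoint_iff_inter_eq_empty, ← Set.inter_inter_distrib_left]
    exact hcon
  obtain ⟨δ, hδ, hδ'⟩ := Metric.exists_pos_forall_lt_edist (hcomp.inter_right hU)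
    ((hcomp.inter_right hV).isClosed) hdis
  -- choose the level
  have hlim : Tendsto (fun n : ℕ => ‖q‖ ^ n * (2 / (1 - ‖q‖))) atTop (𝓝 0) := by
    have := (tendsto_pow_atTop_nhds_zero_of_lt_one (norm_nonneg q) hq).mul_const (2 / (1 - ‖q‖))
    simpa using this
  obtain ⟨n, hn⟩ := (hlim.eventually_lt_const (show (0:ℝ) < δ by exact_mod_cast hδ)).exists
  have hexcl : ∀ b, ¬ (code q b ∈ U ∧ code q b ∈ V) := by
    rintro b ⟨h1, h2⟩
    have : code q b ∈ range (code q) ∩ (U ∩ V) := ⟨mem_range_self b, h1, h2⟩
    rw [hcon] at this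
    exact this
  have hχ := const_pred hq hst n (fun b => code q b ∈ U) (by
      have key : ∀ b b', (∀ k < n, b k = b' k) → code q b ∈ U → code q b' ∈ U := by
        intro b b' hbb hb
        by_contra hb'
        have hV' : code q b' ∈ V := (hcov (mem_range_self b')).resolve_left hb'
        have h3 := hδ' (code q b) ⟨mem_range_self b, hb⟩ (code q b') ⟨mem_range_self b', hV'⟩
        have h4 := code_diff hq n b b' hbb
        rw [edist_dist, dist_eq_norm] at h3
        have h5 : (δ : ℝ) < ‖code q b - code q b'‖ := by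
          rw [← ENNReal.ofReal_coe_nnreal] at h3
          exact (ENNReal.ofReal_lt_ofReal_iff_of_nonneg δ.2).1 h3
        linarith
      exact fun b b' hbb => ⟨key b b' hbb, key b' b fun k hk => (hbb k hk).symm⟩)
    (fun b b' hbb => by rw [hbb])
  obtain ⟨_, ⟨b1, rfl⟩, hb1⟩ := hneU
  obtain ⟨_, ⟨b2, rfl⟩, hb2⟩ := hneV
  exact hexcl b2 ⟨(hχ b1 b2).1 hb1, hb2⟩

end Pool.Agent.R222.Mand
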