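import Mathlib

set_option autoImplicit false

open Set Filter Topology

namespace Pool.Agent.R222.Mand

/-- real part of `conj u * z` -/
def dot (u z : ℂ) : ℝ := u.re * z.re + u.im * z.im

lemma abs_dot_le (u z : ℂ) : |dot u z| ≤ ‖u‖ * ‖z‖ := by
  have h : dot u z = (starRingEnd ℂ u * z).re := by simp [dot]
  rw [h]
  calc _ ≤ ‖starRingEnd ℂ u * z‖ := Complex.abs_re_le_norm _
    _ = _ := by rw [norm_mul, RCLike.norm_conj]

lemma dot_sub (u z w : ℂ) : dot u (z - w) = dot u z - dot u w := by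
  simp only [dot, Complex.sub_re, Complex.sub_im]; ring

/-- The certificate: `u` shows that no power series vanishes at `q`. -/
def Cert (q u : ℂ) : Prop := ∑' k : ℕ, |dot u (q ^ (k + 1))| < u.re

lemma summable_dot {q : ℂ} (hq : ‖q‖ < 1) (u : ℂ) : Summable fun k : ℕ => |dot u (q ^ (k + 1))| := by
  refine Summable.of_nonneg_of_le (fun k => abs_nonneg _) (fun k => abs_dot_le u _) ?_
  have h1 : Summable fun k : ℕ => ‖q‖ ^ k := summable_geometric_of_lt_one (norm_nonneg _) hq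
  refine ((h1.mul_left ‖q‖).mul_left ‖u‖).congr fun k => ?_
  rw [norm_pow, pow_succ]; ring

/-- A certificate excludes zeros. -/
lemma cert_ne {q u : ℂ} (hq : ‖q‖ < 1) (hc : Cert q u) (a : ℕ → ℝ) (h0 : a 0 = 1)
    (ha : ∀ k, |a k| ≤ 1) : ∑' k, (a k : ℂ) * q ^ k ≠ 0 := by
  intro hz
  have hs : Summable fun k => (a k : ℂ) * q ^ k := by
    refine Summable.of_norm_bounded (summable_geometric_of_lt_one (norm_nonneg _) hq) fun k => ?_
    rw [norm_mul, norm_pow, Complex.norm_real, Real.norm_eq_abs]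
    calc _ ≤ 1 * ‖q‖ ^ k := mul_le_mul_of_nonneg_right (ha k) (by positivity)
      _ = _ := one_mul _
  rw [hs.tsum_eq_zero_add] at hz
  simp only [h0, pow_zero, mul_one, Complex.ofReal_one] at hz
  -- apply the functional
  set L : ℂ →L[ℝ] ℝ := u.re • Complex.reCLM + u.im • Complex.imCLM with hL
  have hLd : ∀ z, L z = dot u z := fun z => by simp [hL, dot]
  have hs' : Summable fun k => (a (k + 1) : ℂ) * q ^ (k + 1) :=
    (summable_nat_add_iff 1).2 hs
  have h1 : L (1 + ∑' k, (a (k + 1) : ℂ) * q ^ (k + 1)) = 0 := by rw [hz, map_zero]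
  rw [map_add, L.map_tsum hs', hLd] at h1
  have h2 : dot u 1 = u.re := by simp [dot]
  rw [h2] at h1
  have h3 : ∀ k : ℕ, L ((a (k + 1) : ℂ) * q ^ (k + 1)) = a (k + 1) * dot u (q ^ (k + 1)) := by
    intro k
    rw [hLd]
    simp only [dot, Complex.mul_re, Complex.mul_im, Complex.ofReal_re, Complex.ofReal_im]
    ring
  simp_rw [h3] at h1
  have h4 : |∑' k : ℕ, a (k + 1) * dot u (q ^ (k + 1))| ≤ ∑' k : ℕ, |dot u (q ^ (k + 1))| := by
    rw [← Real.norm_eq_abs]
    refine tsum_of_norm_bounded (summable_dot hq u).hasSum fun k => ?_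
    rw [Real.norm_eq_abs, abs_mul]
    calc _ ≤ 1 * |dot u (q ^ (k + 1))| := mul_le_mul_of_nonneg_right (ha _) (abs_nonneg _)
      _ = _ := one_mul _
  have h5 := (abs_le.1 h4).1
  unfold Cert at hc
  linarith

/-- Certificates persist when the point is moved towards the origin. -/
lemma cert_scale {q u : ℂ} (hq : ‖q‖ < 1) (hc : Cert q u) {s : ℝ} (hs0 : 0 ≤ s) (hs1 : s ≤ 1) :
    Cert ((s : ℂ) * q) u := by
  unfold Cert at hc ⊢
  refine lt_of_le_of_lt ?_ hc
  have hq' : ‖(s:ℂ) * q‖ < 1 := by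
    rw [norm_mul, Complex.norm_real, Real.norm_eq_abs, abs_of_nonneg hs0]
    calc s * ‖q‖ ≤ 1 * ‖q‖ := mul_le_mul_of_nonneg_right hs1 (norm_nonneg _)
      _ < 1 := by rwa [one_mul]
  refine (summable_dot hq' u).tsum_le_tsum (fun k => ?_) (summable_dot hq u)
  have : dot u (((s:ℂ) * q) ^ (k + 1)) = s ^ (k + 1) * dot u (q ^ (k + 1)) := by
    rw [mul_pow, ← Complex.ofReal_pow]
    simp only [dot, Complex.mul_re, Complex.mul_im, Complex.ofReal_re, Complex.ofReal_im]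
    ring
  rw [this, abs_mul, abs_of_nonneg (by positivity)]
  calc s ^ (k + 1) * |dot u (q ^ (k + 1))| ≤ 1 * |dot u (q ^ (k + 1))| :=
        mul_le_mul_of_nonneg_right (pow_le_one₀ hs0 hs1) (abs_nonneg _)
    _ = _ := one_mul _

lemma pow_diff_le {q c : ℂ} {R : ℝ} (hq : ‖q‖ ≤ R) (hc : ‖c‖ ≤ R) (k : ℕ) :
    ‖q ^ (k + 1) - c ^ (k + 1)‖ ≤ (k + 1) * R ^ k * ‖q - c‖ := by
  have hR : 0 ≤ R := (norm_nonneg q).trans hq
  induction k with
  | zero => simp
  | succ k ih =>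
    have h1 : q ^ (k + 1 + 1) - c ^ (k + 1 + 1) =
        q * (q ^ (k + 1) - c ^ (k + 1)) + (q - c) * c ^ (k + 1) := by ring
    rw [h1]
    calc ‖q * (q ^ (k + 1) - c ^ (k + 1)) + (q - c) * c ^ (k + 1)‖
        ≤ ‖q‖ * ‖q ^ (k + 1) - c ^ (k + 1)‖ + ‖q - c‖ * ‖c‖ ^ (k + 1) := by
          refine (norm_add_le _ _).trans ?_
          rw [norm_mul, norm_mul, norm_pow]
      _ ≤ R * ((k + 1) * R ^ k * ‖q - c‖) + ‖q - c‖ * R ^ (k + 1) := by
          refine add_le_add (mul_le_mul hq ih (norm_nonneg _) hR) ?_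
          exact mul_le_mul_of_nonneg_left (pow_le_pow_left₀ (norm_nonneg _) hc _) (norm_nonneg _)
      _ = _ := by push_cast; ring

/-- A certificate for a whole disc from a finite computation at its centre. -/
lemma cert_of_center {q c u : ℂ} {R ρ : ℝ} (hR1 : R < 1) (hq : ‖q‖ ≤ R) (hc : ‖c‖ ≤ R)
    (hρ : ‖q - c‖ ≤ ρ) (K : ℕ)
    (h : ∑ k ∈ Finset.range K, |dot u (c ^ (k + 1))| + ‖u‖ * ρ * (1 / (1 - R) ^ 2)
      + ‖u‖ * (R ^ (K + 1) * (1 / (1 - R))) < u.re) : Cert q u := by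
  have hR0 : 0 ≤ R := (norm_nonneg q).trans hq
  unfold Cert
  refine lt_of_le_of_lt ?_ h
  have hRn : ‖R‖ < 1 := by rwa [Real.norm_eq_abs, abs_of_nonneg hR0]
  have hgeo : HasSum (fun k : ℕ => ((k:ℝ) + 1) * R ^ k) (1 / (1 - R) ^ 2) := by
    have h1 := hasSum_choose_mul_geometric_of_norm_lt_one 1 hRn
    simpa using h1
  have hsc : Summable fun k : ℕ => |dot u (c ^ (k + 1))| := summable_dot (lt_of_le_of_lt hc hR1) u
  have hsq : Summable fun k : ℕ => |dot u (q ^ (k + 1))| := summable_dot (lt_of_le_of_lt hq hR1) u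
  have h1 : ∑' k : ℕ, |dot u (q ^ (k + 1))| ≤
      ∑' k : ℕ, (|dot u (c ^ (k + 1))| + ‖u‖ * ρ * (((k:ℝ) + 1) * R ^ k)) := by
    refine hsq.tsum_le_tsum (fun k => ?_) (hsc.add (hgeo.summable.mul_left _))
    have h2 : dot u (q ^ (k + 1)) = dot u (c ^ (k + 1)) + dot u (q ^ (k + 1) - c ^ (k + 1)) := by
      rw [dot_sub]; ring
    rw [h2]
    refine (abs_add_le _ _).trans (add_le_add le_rfl ?_)
    refine (abs_dot_le _ _).trans ?_
    rw [mul_assoc]
    refine mul_le_mul_of_nonneg_left ?_ (norm_nonneg _)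
    refine (pow_diff_le hq hc k).trans ?_
    rw [mul_comm ρ]
    exact mul_le_mul_of_nonneg_left hρ (by positivity)
  refine h1.trans ?_
  rw [hsc.tsum_add (hgeo.summable.mul_left _), tsum_mul_left, hgeo.tsum_eq]
  have h3 : ∑' k : ℕ, |dot u (c ^ (k + 1))| ≤ ∑ k ∈ Finset.range K, |dot u (c ^ (k + 1))| +
      ‖u‖ * (R ^ (K + 1) * (1 / (1 - R))) := by
    rw [← hsc.sum_add_tsum_nat_add K]
    refine add_le_add le_rfl ?_
    have h4 : HasSum (fun k : ℕ => ‖u‖ * (R ^ (K + 1) * R ^ k)) (‖u‖ * (R ^ (K + 1) * (1 / (1 - R)))) := by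
      have := hasSum_geometric_of_lt_one hR0 hR1
      rw [← one_div] at this
      exact (this.mul_left _).mul_left _
    rw [← h4.tsum_eq]
    refine ((summable_nat_add_iff K).2 hsc).tsum_le_tsum (fun k => ?_) h4.summable
    refine (abs_dot_le _ _).trans ?_
    rw [norm_pow]
    refine mul_le_mul_of_nonneg_left ?_ (norm_nonneg _)
    rw [← pow_add]
    refine (pow_le_pow_left₀ (norm_nonneg _) hc _).trans (le_of_eq ?_)
    congr 1
    omega
  linarith

end Pool.Agent.R222.Mand
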