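import Mathlib
import Pool.Agent.R222.Mand.Cert

set_option autoImplicit false

open Set Filter Topology

namespace Pool.Agent.R222.Mand

/-- the power series -/
noncomputable def F (a : ℕ → ℝ) (z : ℂ) : ℂ := ∑' k, (a k : ℂ) * z ^ k
/-- its derivative -/
noncomputable def F1 (a : ℕ → ℝ) (z : ℂ) : ℂ := ∑' k : ℕ, (a k : ℂ) * ((k : ℂ) * z ^ (k - 1))
/-- its second derivative -/
noncomputable def F2 (a : ℕ → ℝ) (z : ℂ) : ℂ :=
  ∑' k : ℕ, (a k : ℂ) * ((k : ℂ) * (((k - 1 : ℕ) : ℂ) * z ^ (k - 1 - 1)))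

lemma hasSum_d1 {r : ℝ} (h0 : 0 ≤ r) (h1 : r < 1) :
    HasSum (fun n : ℕ => (n:ℝ) * r ^ (n - 1)) (1 / (1 - r) ^ 2) := by
  have hrn : ‖r‖ < 1 := by rwa [Real.norm_eq_abs, abs_of_nonneg h0]
  have h := hasSum_choose_mul_geometric_of_norm_lt_one 1 hrn
  refine (hasSum_nat_add_iff' 1).1 ?_
  simpa using h

lemma hasSum_d2 {r : ℝ} (h0 : 0 ≤ r) (h1 : r < 1) :
    HasSum (fun n : ℕ => (n:ℝ) * (((n - 1 : ℕ) : ℝ) * r ^ (n - 1 - 1))) (2 / (1 - r) ^ 3) := by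
  have hrn : ‖r‖ < 1 := by rwa [Real.norm_eq_abs, abs_of_nonneg h0]
  have h := (hasSum_choose_mul_geometric_of_norm_lt_one 2 hrn).mul_left 2
  refine (hasSum_nat_add_iff' 2).1 ?_
  have e1 : (2 / (1 - r) ^ 3 - ∑ i ∈ Finset.range 2, (i:ℝ) * (((i - 1 : ℕ) : ℝ) * r ^ (i - 1 - 1))) =
      2 * (1 / (1 - r) ^ (2 + 1)) := by
    simp [Finset.sum_range_succ]
    ring
  rw [e1]
  have e2 : (fun n : ℕ => ((n + 2 : ℕ):ℝ) * (((n + 2 - 1 : ℕ) : ℝ) * r ^ (n + 2 - 1 - 1))) =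
      fun n : ℕ => 2 * (((n + 2).choose 2 : ℕ) * r ^ n) := by
    funext n
    have e3 : (((n + 2).choose 2 : ℕ) : ℝ) = ((n:ℝ) + 2) * (n + 1) / 2 := by
      rw [Nat.cast_choose_two]
      push_cast
      ring
    rw [e3]
    have e4 : n + 2 - 1 = n + 1 := by omega
    have e5 : n + 1 - 1 = n := by omega
    rw [e4, e5]
    push_cast
    ring
  rw [e2]
  exact h

section
variable {a : ℕ → ℝ} (ha : ∀ k, |a k| ≤ 1)
include ha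

lemma norm_coef (k : ℕ) (w : ℂ) : ‖(a k : ℂ) * w‖ ≤ ‖w‖ := by
  rw [norm_mul, Complex.norm_real, Real.norm_eq_abs]
  calc _ ≤ 1 * ‖w‖ := mul_le_mul_of_nonneg_right (ha k) (norm_nonneg _)
    _ = _ := one_mul _

lemma summable_F {z : ℂ} (hz : ‖z‖ < 1) : Summable fun k => (a k : ℂ) * z ^ k :=
  Summable.of_norm_bounded (summable_geometric_of_lt_one (norm_nonneg _) hz) fun k => by
    refine (norm_coef ha k _).trans ?_
    rw [norm_pow]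

lemma term1_le (k : ℕ) {z : ℂ} {r : ℝ} (hz : ‖z‖ ≤ r) :
    ‖(a k : ℂ) * ((k : ℂ) * z ^ (k - 1))‖ ≤ (k:ℝ) * r ^ (k - 1) := by
  refine (norm_coef ha k _).trans ?_
  rw [norm_mul, norm_pow, Complex.norm_natCast]
  exact mul_le_mul_of_nonneg_left (pow_le_pow_left₀ (norm_nonneg _) hz _) (Nat.cast_nonneg _)

lemma term2_le (k : ℕ) {z : ℂ} {r : ℝ} (hz : ‖z‖ ≤ r) :
    ‖(a k : ℂ) * ((k : ℂ) * (((k - 1 : ℕ) : ℂ) * z ^ (k - 1 - 1)))‖ ≤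
      (k:ℝ) * (((k - 1 : ℕ) : ℝ) * r ^ (k - 1 - 1)) := by
  refine (norm_coef ha k _).trans ?_
  rw [norm_mul, norm_mul, norm_pow, Complex.norm_natCast, Complex.norm_natCast]
  refine mul_le_mul_of_nonneg_left ?_ (Nat.cast_nonneg _)
  exact mul_le_mul_of_nonneg_left (pow_le_pow_left₀ (norm_nonneg _) hz _) (Nat.cast_nonneg _)

lemma summable_F1 {z : ℂ} (hz : ‖z‖ < 1) :
    Summable fun k : ℕ => (a k : ℂ) * ((k : ℂ) * z ^ (k - 1)) :=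
  Summable.of_norm_bounded (hasSum_d1 (norm_nonneg z) hz).summable fun k => term1_le ha k le_rfl

lemma summable_F2 {z : ℂ} (hz : ‖z‖ < 1) :
    Summable fun k : ℕ => (a k : ℂ) * ((k : ℂ) * (((k - 1 : ℕ) : ℂ) * z ^ (k - 1 - 1))) :=
  Summable.of_norm_bounded (hasSum_d2 (norm_nonneg z) hz).summable fun k => term2_le ha k le_rfl

lemma norm_F2_le {z : ℂ} (hz : ‖z‖ < 1) : ‖F2 a z‖ ≤ 2 / (1 - ‖z‖) ^ 3 :=
  tsum_of_norm_bounded (hasSum_d2 (norm_nonneg z) hz) fun k => term2_le ha k le_rfl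

lemma hasDerivAt_F {z : ℂ} (hz : ‖z‖ < 1) : HasDerivAt (F a) (F1 a z) z := by
  obtain ⟨r, hr1, hr2⟩ := exists_between hz
  have hr0 : 0 ≤ r := (norm_nonneg z).trans hr1.le
  have h1 : ∀ (n : ℕ) (y : ℂ), y ∈ Metric.ball (0:ℂ) r →
      HasDerivAt (fun z : ℂ => (a n : ℂ) * z ^ n) ((a n : ℂ) * ((n : ℂ) * y ^ (n - 1))) y :=
    fun n y _ => (hasDerivAt_pow n y).const_mul _
  have h2 : ∀ (n : ℕ) (y : ℂ), y ∈ Metric.ball (0:ℂ) r →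
      ‖(a n : ℂ) * ((n : ℂ) * y ^ (n - 1))‖ ≤ (n:ℝ) * r ^ (n - 1) :=
    fun n y hy => term1_le ha n (mem_ball_zero_iff.1 hy).le
  have h0 : (0:ℂ) ∈ Metric.ball (0:ℂ) r :=
    Metric.mem_ball_self (lt_of_le_of_lt (norm_nonneg z) hr1)
  have hs : Summable fun n : ℕ => (a n : ℂ) * (0:ℂ) ^ n := summable_F ha (by simp)
  exact hasDerivAt_tsum_of_isPreconnected (g := fun (n : ℕ) (z : ℂ) => (a n : ℂ) * z ^ n)
    (g' := fun (n : ℕ) (z : ℂ) => (a n : ℂ) * ((n : ℂ) * z ^ (n - 1)))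
    (hasSum_d1 hr0 hr2).summable Metric.isOpen_ball (convex_ball _ _).isPreconnected h1 h2 h0 hs
    (mem_ball_zero_iff.2 hr1)

lemma hasDerivAt_F1 {z : ℂ} (hz : ‖z‖ < 1) : HasDerivAt (F1 a) (F2 a z) z := by
  obtain ⟨r, hr1, hr2⟩ := exists_between hz
  have hr0 : 0 ≤ r := (norm_nonneg z).trans hr1.le
  have h1 : ∀ (n : ℕ) (y : ℂ), y ∈ Metric.ball (0:ℂ) r →
      HasDerivAt (fun z : ℂ => (a n : ℂ) * ((n : ℂ) * z ^ (n - 1)))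
        ((a n : ℂ) * ((n : ℂ) * (((n - 1 : ℕ) : ℂ) * y ^ (n - 1 - 1)))) y :=
    fun n y _ => ((hasDerivAt_pow (n - 1) y).const_mul _).const_mul _
  have h2 : ∀ (n : ℕ) (y : ℂ), y ∈ Metric.ball (0:ℂ) r →
      ‖(a n : ℂ) * ((n : ℂ) * (((n - 1 : ℕ) : ℂ) * y ^ (n - 1 - 1)))‖ ≤
        (n:ℝ) * (((n - 1 : ℕ) : ℝ) * r ^ (n - 1 - 1)) :=
    fun n y hy => term2_le ha n (mem_ball_zero_iff.1 hy).le
  have h0 : (0:ℂ) ∈ Metric.ball (0:ℂ) r :=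
    Metric.mem_ball_self (lt_of_le_of_lt (norm_nonneg z) hr1)
  have hs : Summable fun n : ℕ => (a n : ℂ) * ((n : ℂ) * (0:ℂ) ^ (n - 1)) := summable_F1 ha (by simp)
  exact hasDerivAt_tsum_of_isPreconnected
    (g := fun (n : ℕ) (z : ℂ) => (a n : ℂ) * ((n : ℂ) * z ^ (n - 1)))
    (g' := fun (n : ℕ) (z : ℂ) => (a n : ℂ) * ((n : ℂ) * (((n - 1 : ℕ) : ℂ) * z ^ (n - 1 - 1))))
    (hasSum_d2 hr0 hr2).summable Metric.isOpen_ball (convex_ball _ _).isPreconnected h1 h2 h0 hs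
    (mem_ball_zero_iff.2 hr1)

end

end Pool.Agent.R222.Mand
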