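import Mathlib
import Pool.Agent.R222.Mand.Diff

set_option autoImplicit false

open Set Filter Topology

namespace Pool.Agent.R222.Mand

/-- Moving one coefficient moves a simple zero along a differentiable curve. -/
lemma curve {a : ℕ → ℝ} (ha : ∀ k, |a k| ≤ 1) {q : ℂ} (hq0 : q ≠ 0) (hq1 : ‖q‖ < 1)
    (hF : F a q = 0) (hD : F1 a q ≠ 0) (k : ℕ) (hk : 1 ≤ k) :
    ∃ z : ℝ → ℂ, ∃ τ > 0, z 0 = q ∧ ∀ t : ℝ, |t| < τ →
      F a (z t) + t * (z t) ^ k = 0 ∧ z t ≠ 0 ∧ ‖z t‖ < 1 ∧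
      F1 a (z t) + k * t * (z t) ^ (k - 1) ≠ 0 ∧
      HasDerivAt z (-(z t) ^ k / (F1 a (z t) + k * t * (z t) ^ (k - 1))) t := by
  set G : ℂ → ℂ := fun z => -F a z / z ^ k with hG
  set G1 : ℂ → ℂ := fun z => (-F1 a z * z ^ k - -F a z * (k * z ^ (k - 1))) / (z ^ k) ^ 2 with hG1
  set s : Set ℂ := {z | z ≠ 0} ∩ Metric.ball 0 1 with hs
  have hso : IsOpen s := isOpen_ne.inter Metric.isOpen_ball
  have hqs : q ∈ s := ⟨hq0, mem_ball_zero_iff.2 hq1⟩
  have hGd : ∀ z ∈ s, HasDerivAt G (G1 z) z := by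
    intro z hz
    exact (hasDerivAt_F ha (mem_ball_zero_iff.1 hz.2)).neg.div (hasDerivAt_pow k z)
      (pow_ne_zero _ hz.1)
  have hGa : AnalyticAt ℂ G q :=
    DifferentiableOn.analyticAt (s := s) (fun z hz => (hGd z hz).differentiableAt.differentiableWithinAt)
      (hso.mem_nhds hqs)
  have hGq : G q = 0 := by simp [hG, hF]
  have hG1q : G1 q = -F1 a q / q ^ k := by
    have h0 : q ^ k ≠ 0 := pow_ne_zero _ hq0
    simp only [hG1, hF]
    rw [neg_zero, zero_mul, sub_zero]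
    field_simp
  have hG1ne : G1 q ≠ 0 := by
    rw [hG1q]
    exact div_ne_zero (neg_ne_zero.2 hD) (pow_ne_zero _ hq0)
  have hstrict : HasStrictDerivAt G (G1 q) q := by
    have h := hGa.hasStrictDerivAt
    rwa [(hGd q hqs).deriv] at h
  set e : OpenPartialHomeomorph ℂ ℂ :=
    (hstrict.hasStrictFDerivAt_equiv hG1ne).toOpenPartialHomeomorph G with he
  have hes : q ∈ e.source := (hstrict.hasStrictFDerivAt_equiv hG1ne).mem_toOpenPartialHomeomorph_source
  have hec : ∀ z, e z = G z := fun z => rfl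
  have heq : e q = 0 := by rw [hec, hGq]
  have h0t : (0:ℂ) ∈ e.target := by rw [← heq]; exact e.map_source hes
  have hsymm0 : e.symm 0 = q := by rw [← heq]; exact e.left_inv hes
  have hcont : ContinuousAt e.symm 0 := e.continuousAt_symm h0t
  have hev1 : ∀ᶠ w in 𝓝 (0:ℂ), w ∈ e.target := e.open_target.mem_nhds h0t
  have hev2 : ∀ᶠ w in 𝓝 (0:ℂ), e.symm w ∈ s :=
    hcont.eventually (by rw [hsymm0]; exact hso.mem_nhds hqs)
  have hev3 : ∀ᶠ w in 𝓝 (0:ℂ), F1 a (e.symm w) + k * w * (e.symm w) ^ (k - 1) ≠ 0 := by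
    have hc1 : ContinuousAt (fun w => F1 a (e.symm w)) 0 := by
      refine ContinuousAt.comp (g := F1 a) ?_ hcont
      rw [hsymm0]
      exact (hasDerivAt_F1 ha hq1).continuousAt
    have hc2 : ContinuousAt (fun w => F1 a (e.symm w) + k * w * (e.symm w) ^ (k - 1)) 0 :=
      hc1.add ((continuousAt_const.mul continuousAt_id).mul (hcont.pow _))
    refine hc2.eventually_ne ?_
    rw [hsymm0, mul_zero, zero_mul, add_zero]
    exact hD
  obtain ⟨τ, hτ, hball⟩ := Metric.eventually_nhds_iff.1 ((hev1.and hev2).and hev3)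
  refine ⟨fun t => e.symm (t:ℂ), τ, hτ, by simp [hsymm0], fun t ht => ?_⟩
  obtain ⟨⟨h1, h2⟩, h3⟩ := hball (y := (t:ℂ)) (by
    rw [dist_zero_right, Complex.norm_real, Real.norm_eq_abs]; exact ht)
  have hz0 : e.symm (t:ℂ) ≠ 0 := h2.1
  have hzk : e.symm (t:ℂ) ^ k ≠ 0 := pow_ne_zero _ hz0
  have hGz : G (e.symm (t:ℂ)) = t := by rw [← hec]; exact e.right_inv h1
  have hFz : F a (e.symm (t:ℂ)) = -(t * (e.symm (t:ℂ)) ^ k) := by
    simp only [hG] at hGz
    rw [div_eq_iff hzk] at hGz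
    rw [← hGz, neg_neg]
  have hzn : ‖e.symm (t:ℂ)‖ < 1 := mem_ball_zero_iff.1 h2.2
  have hpk : e.symm (t:ℂ) ^ k = e.symm (t:ℂ) * e.symm (t:ℂ) ^ (k - 1) := by
    rw [← pow_succ', Nat.sub_add_cancel hk]
  have hG1z : G1 (e.symm (t:ℂ)) = -(F1 a (e.symm (t:ℂ)) + k * t * (e.symm (t:ℂ)) ^ (k - 1)) /
      (e.symm (t:ℂ)) ^ k := by
    simp only [hG1, hFz]
    rw [div_eq_div_iff (pow_ne_zero _ hzk) hzk]
    ring
  have hG1z0 : G1 (e.symm (t:ℂ)) ≠ 0 := by
    rw [hG1z]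
    exact div_ne_zero (neg_ne_zero.2 h3) hzk
  refine ⟨by rw [hFz]; ring, hz0, hzn, h3, ?_⟩
  have hder : HasDerivAt e.symm (G1 (e.symm (t:ℂ)))⁻¹ (t:ℂ) :=
    e.hasDerivAt_symm h1 hG1z0 (hGd _ h2)
  have h4 := hder.comp_ofReal
  rw [hG1z, inv_div] at h4
  convert h4 using 1
  rw [div_neg, neg_div]

/-- the derivative of the squared norm -/
lemma hasDerivAt_normSq {z : ℝ → ℂ} {z' : ℂ} {t : ℝ} (h : HasDerivAt z z' t) :
    HasDerivAt (fun s => Complex.normSq (z s)) (2 * (starRingEnd ℂ (z t) * z').re) t := by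
  have h1 : HasDerivAt (fun s => (z s).re) z'.re t := by
    have := Complex.reCLM.hasFDerivAt.comp_hasDerivAt t h
    exact this
  have h2 : HasDerivAt (fun s => (z s).im) z'.im t := by
    have := Complex.imCLM.hasFDerivAt.comp_hasDerivAt t h
    exact this
  have h3 := (h1.mul h1).add (h2.mul h2)
  simp only [Complex.normSq_apply]
  refine h3.congr_deriv ?_
  simp only [Complex.mul_re, Complex.conj_re, Complex.conj_im]
  ring

/-- The sign of the derivative of the squared norm along the curve. -/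
lemma re_formula {z D : ℂ} {k : ℕ} (hk : 1 ≤ k) (hz : z ≠ 0) (hD : D ≠ 0) :
    (starRingEnd ℂ z * (-z ^ k / D)).re =
      -(Complex.normSq z * (D / z ^ (k - 1)).re / Complex.normSq (D / z ^ (k - 1))) := by
  have hzk : z ^ (k - 1) ≠ 0 := pow_ne_zero _ hz
  have hw : D / z ^ (k - 1) ≠ 0 := div_ne_zero hD hzk
  have e1 : starRingEnd ℂ z * (-z ^ k / D) = -((Complex.normSq z : ℂ) * (D / z ^ (k - 1))⁻¹) := by
    rw [← Complex.mul_conj, inv_div]
    have : z ^ k = z * z ^ (k - 1) := by rw [← pow_succ', Nat.sub_add_cancel hk]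
    rw [this]
    ring
  rw [e1, Complex.neg_re, Complex.re_ofReal_mul, Complex.inv_re]
  ring

/-- If the coefficient may move in the direction `σ`, and the function `χ` has the right sign, the
zero moves inwards. -/
lemma inward {z : ℝ → ℂ} {D : ℝ → ℂ} {τ : ℝ} (hτ : 0 < τ) {k : ℕ} (hk : 1 ≤ k) {σ : ℝ}
    (hσ : σ = 1 ∨ σ = -1)
    (h : ∀ t : ℝ, |t| < τ → z t ≠ 0 ∧ D t ≠ 0 ∧ HasDerivAt z (-(z t) ^ k / D t) t)
    (hχ : ∀ᶠ t in 𝓝[>] (0:ℝ), 0 < σ * (D (σ * t) / (z (σ * t)) ^ (k - 1)).re) :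
    ∀ᶠ t in 𝓝[>] (0:ℝ), ‖z (σ * t)‖ < ‖z 0‖ := by
  rw [eventually_nhdsWithin_iff, Metric.eventually_nhds_iff] at hχ
  obtain ⟨δ, hδ, hχ⟩ := hχ
  rw [eventually_nhdsWithin_iff, Metric.eventually_nhds_iff]
  refine ⟨min δ τ, lt_min hδ hτ, fun t ht ht0 => ?_⟩
  rw [mem_Ioi] at ht0
  rw [Real.dist_eq, sub_zero, abs_of_pos ht0] at ht
  have habs : |σ| = 1 := by rcases hσ with h | h <;> simp [h]
  have hσσ : σ * σ = 1 := by rcases hσ with h | h <;> simp [h]
  -- the function on [0, t]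
  have hder : ∀ s : ℝ, |s| < τ → HasDerivAt (fun s => Complex.normSq (z (σ * s)))
      (2 * (starRingEnd ℂ (z (σ * s)) * (-(z (σ * s)) ^ k / D (σ * s))).re * σ) s := by
    intro s hs
    have h1 := (h (σ * s) (by rw [abs_mul, habs, one_mul]; exact hs)).2.2
    have h2 := hasDerivAt_normSq h1
    have h3 : HasDerivAt (fun s : ℝ => σ * s) σ s := by
      simpa using (hasDerivAt_id s).const_mul σ
    exact h2.comp s h3
  have htτ : t < τ := ht.trans_le (min_le_right _ _)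
  have htδ : t < δ := ht.trans_le (min_le_left _ _)
  have hcont : ContinuousOn (fun s => Complex.normSq (z (σ * s))) (Icc 0 t) := by
    intro s hs
    have hsτ : |s| < τ := by
      rw [abs_of_nonneg hs.1]
      exact lt_of_le_of_lt hs.2 htτ
    exact (hder s hsτ).continuousAt.continuousWithinAt
  obtain ⟨c, hc, hcs⟩ := exists_hasDerivAt_eq_slope (fun s => Complex.normSq (z (σ * s))) _ ht0 hcont
    (fun s hs => hder s (by rw [abs_of_pos hs.1]; exact hs.2.trans htτ))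
  have hcτ : |c| < τ := by rw [abs_of_pos hc.1]; exact hc.2.trans htτ
  obtain ⟨hz, hD, _⟩ := h (σ * c) (by rw [abs_mul, habs, one_mul]; exact hcτ)
  have hχc := hχ (y := c) (by
    rw [Real.dist_eq, sub_zero, abs_of_pos hc.1]
    exact hc.2.trans htδ) hc.1
  rw [re_formula hk hz hD] at hcs
  have hneg : 2 * -(Complex.normSq (z (σ * c)) * (D (σ * c) / z (σ * c) ^ (k - 1)).re /
      Complex.normSq (D (σ * c) / z (σ * c) ^ (k - 1))) * σ < 0 := by
    have e1 : 2 * -(Complex.normSq (z (σ * c)) * (D (σ * c) / z (σ * c) ^ (k - 1)).re /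
      Complex.normSq (D (σ * c) / z (σ * c) ^ (k - 1))) * σ =
      -(2 * Complex.normSq (z (σ * c)) * (σ * (D (σ * c) / z (σ * c) ^ (k - 1)).re) /
        Complex.normSq (D (σ * c) / z (σ * c) ^ (k - 1))) := by ring
    rw [e1]
    have p1 : 0 < Complex.normSq (z (σ * c)) := Complex.normSq_pos.2 hz
    have p2 : 0 < Complex.normSq (D (σ * c) / z (σ * c) ^ (k - 1)) :=
      Complex.normSq_pos.2 (div_ne_zero hD (pow_ne_zero _ hz))
    have : 0 < 2 * Complex.normSq (z (σ * c)) * (σ * (D (σ * c) / z (σ * c) ^ (k - 1)).re) /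
        Complex.normSq (D (σ * c) / z (σ * c) ^ (k - 1)) := by positivity
    linarith
  rw [hcs, sub_zero, mul_zero] at hneg
  have hlt : Complex.normSq (z (σ * t)) < Complex.normSq (z 0) := by
    have := (div_neg_iff.1 hneg)
    rcases this with ⟨_, h2⟩ | ⟨h1, _⟩
    · linarith
    · linarith
  rw [Complex.normSq_eq_norm_sq, Complex.normSq_eq_norm_sq] at hlt
  exact (pow_lt_pow_iff_left₀ (norm_nonneg _) (norm_nonneg _) two_ne_zero).1 hlt

end Pool.Agent.R222.Mand
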