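import Mathlib
import Pool.Agent.R222.Mand.Perturb

set_option autoImplicit false

open Set Filter Topology

namespace Pool.Agent.R222.Mand

lemma F_update {a : ℕ → ℝ} (ha : ∀ k, |a k| ≤ 1) {z : ℂ} (hz : ‖z‖ < 1) (k : ℕ) (c : ℝ) :
    F (Function.update a k (a k + c)) z = F a z + c * z ^ k := by
  have h1 : HasSum (fun j => (a j : ℂ) * z ^ j) (F a z) := (summable_F ha hz).hasSum
  have h2 : HasSum (fun j : ℕ => if j = k then (c:ℂ) * z ^ k else 0) ((c:ℂ) * z ^ k) := by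
    simpa using hasSum_ite_eq k ((c:ℂ) * z ^ k)
  have h3 := h1.add h2
  have h4 : (fun j => (a j : ℂ) * z ^ j + if j = k then (c:ℂ) * z ^ k else 0) =
      fun j => ((Function.update a k (a k + c) j : ℝ) : ℂ) * z ^ j := by
    funext j
    by_cases h : j = k
    · subst h
      simp
      ring
    · simp [h]
  rw [h4] at h3
  exact h3.tsum_eq

/-- The extremal principle. -/
lemma bangbang {a : ℕ → ℝ} (ha : ∀ k, |a k| ≤ 1) {q : ℂ} (hq0 : q ≠ 0) (hq1 : ‖q‖ < 1)
    (hF : F a q = 0) (hD : F1 a q ≠ 0)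
    (hmin : ∀ᶠ z in 𝓝 q, ∀ b : ℕ → ℝ, b 0 = a 0 → (∀ k, |b k| ≤ 1) → F b z = 0 → ‖q‖ ≤ ‖z‖)
    {k : ℕ} (hk : 1 ≤ k) (hdeg : (F1 a q / q ^ (k - 1)).re = 0 →
      (q * F2 a q / F1 a q).re < 2 * k - 1) :
    (F1 a q / q ^ (k - 1)).re ≠ 0 ∧ (0 < (F1 a q / q ^ (k - 1)).re → a k = 1) ∧
      ((F1 a q / q ^ (k - 1)).re < 0 → a k = -1) := by
  obtain ⟨z, τ, hτ, hz0, hz⟩ := curve ha hq0 hq1 hF hD k hk
  set D : ℝ → ℂ := fun t => F1 a (z t) + k * t * (z t) ^ (k - 1) with hDdef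
  have hzc : ContinuousAt z 0 := (hz 0 (by simpa using hτ)).2.2.2.2.continuousAt
  -- the basic alternative
  have key : ∀ σ : ℝ, (σ = 1 ∨ σ = -1) → (∀ᶠ t in 𝓝[>] (0:ℝ), |a k + σ * t| ≤ 1) →
      (∀ᶠ t in 𝓝[>] (0:ℝ), 0 < σ * (D (σ * t) / (z (σ * t)) ^ (k - 1)).re) → False := by
    intro σ hσ hallow hχ
    have h1 := inward hτ hk hσ (fun t ht => ⟨(hz t ht).2.1, (hz t ht).2.2.2.1, (hz t ht).2.2.2.2⟩) hχ
    have habs : |σ| = 1 := by rcases hσ with h | h <;> simp [h]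
    have hσt : Tendsto (fun t : ℝ => σ * t) (𝓝[>] 0) (𝓝 0) := by
      have : Tendsto (fun t : ℝ => σ * t) (𝓝 0) (𝓝 (σ * 0)) := tendsto_const_nhds.mul tendsto_id
      rw [mul_zero] at this
      exact this.mono_left nhdsWithin_le_nhds
    have h2 : ∀ᶠ t in 𝓝[>] (0:ℝ), ∀ b : ℕ → ℝ, b 0 = a 0 → (∀ k, |b k| ≤ 1) →
        F b (z (σ * t)) = 0 → ‖q‖ ≤ ‖z (σ * t)‖ := by
      have hc : Tendsto (fun t : ℝ => z (σ * t)) (𝓝[>] 0) (𝓝 q) := by
        have := hzc.tendsto.comp hσt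
        rwa [hz0] at this
      exact hc.eventually hmin
    have h3 : ∀ᶠ t in 𝓝[>] (0:ℝ), |σ * t| < τ := by
      have : Tendsto (fun t : ℝ => |σ * t|) (𝓝[>] 0) (𝓝 |0|) := hσt.abs
      rw [abs_zero] at this
      exact this.eventually_lt_const hτ
    obtain ⟨t, ⟨⟨ht1, ht2⟩, ht3⟩, ht4⟩ := ((h1.and h2).and h3 |>.and hallow).exists
    obtain ⟨g1, g2, g3, _⟩ := hz (σ * t) ht3
    have h5 := ht2 (Function.update a k (a k + σ * t))
      (by rw [Function.update_of_ne (by omega)])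
      (fun j => by
        by_cases hj : j = k
        · subst hj; rw [Function.update_self]; exact ht4
        · rw [Function.update_of_ne hj]; exact ha j)
      (by rw [F_update ha g3]; exact g1)
    rw [hz0] at ht1
    linarith
  -- allowed directions
  have hallow1 : a k < 1 → ∀ᶠ t in 𝓝[>] (0:ℝ), |a k + 1 * t| ≤ 1 := by
    intro h
    have h1 : ∀ᶠ t in 𝓝[>] (0:ℝ), t < 1 - a k :=
      nhdsWithin_le_nhds (eventually_lt_nhds (by linarith))
    filter_upwards [h1, self_mem_nhdsWithin] with t ht1 ht2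
    rw [mem_Ioi] at ht2
    rw [abs_le]
    constructor <;> linarith [(abs_le.1 (ha k)).1]
  have hallow2 : -1 < a k → ∀ᶠ t in 𝓝[>] (0:ℝ), |a k + -1 * t| ≤ 1 := by
    intro h
    have h1 : ∀ᶠ t in 𝓝[>] (0:ℝ), t < 1 + a k :=
      nhdsWithin_le_nhds (eventually_lt_nhds (by linarith))
    filter_upwards [h1, self_mem_nhdsWithin] with t ht1 ht2
    rw [mem_Ioi] at ht2
    rw [abs_le]
    constructor <;> linarith [(abs_le.1 (ha k)).2]
  -- differentiability of χ
  have hzd : HasDerivAt z (-q ^ k / F1 a q) 0 := by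
    have h := (hz 0 (by simpa using hτ)).2.2.2.2
    rw [hz0] at h
    simpa using h
  have hχd : HasDerivAt (fun t : ℝ => D t / (z t) ^ (k - 1))
      ((2 * k - 1 : ℂ) - q * F2 a q / F1 a q) 0 := by
    have e1 : HasDerivAt (fun t : ℝ => F1 a (z t)) (F2 a q * (-q ^ k / F1 a q)) 0 := by
      have h := hasDerivAt_F1 ha hq1
      rw [← hz0] at h
      have h2 := h.comp (0:ℝ) hzd
      rw [hz0] at h2
      exact h2
    have e2 : HasDerivAt (fun t : ℝ => (z t) ^ (k - 1))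
        (((k - 1 : ℕ) : ℂ) * q ^ (k - 1 - 1) * (-q ^ k / F1 a q)) 0 := by
      have h := hasDerivAt_pow (k - 1) q
      rw [← hz0] at h
      have h2 := h.comp (0:ℝ) hzd
      rw [hz0] at h2
      exact h2
    have e3 : HasDerivAt (fun t : ℝ => (k:ℂ) * (t:ℂ)) (k:ℂ) 0 := by
      have := (Complex.ofRealCLM.hasDerivAt (x := (0:ℝ))).const_mul (k:ℂ)
      simpa using this
    have e4 : HasDerivAt (fun t : ℝ => F1 a (z t) / (z t) ^ (k - 1))
        ((F2 a q * (-q ^ k / F1 a q) * q ^ (k - 1) - F1 a q *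
          (((k - 1 : ℕ) : ℂ) * q ^ (k - 1 - 1) * (-q ^ k / F1 a q))) / (q ^ (k - 1)) ^ 2) 0 := by
      have h := e1.div e2 (by rw [hz0]; exact pow_ne_zero _ hq0)
      rw [hz0] at h
      exact h
    have e5 := e4.add e3
    have e6 : (fun t : ℝ => F1 a (z t) / (z t) ^ (k - 1) + (k:ℂ) * (t:ℂ)) =ᶠ[𝓝 0]
        fun t : ℝ => D t / (z t) ^ (k - 1) := by
      have : ∀ᶠ t : ℝ in 𝓝 0, |t| < τ := by
        have h := (continuous_abs.tendsto (0:ℝ))
        rw [abs_zero] at h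
        exact h.eventually_lt_const hτ
      filter_upwards [this] with t ht
      have hne : (z t) ^ (k - 1) ≠ 0 := pow_ne_zero _ (hz t ht).2.1
      rw [hDdef]
      field_simp
    refine (e5.congr_of_eventuallyEq e6.symm).congr_deriv ?_
    have p1 : q ^ k = q * q ^ (k - 1) := by rw [← pow_succ', Nat.sub_add_cancel hk]
    have hqk : q ^ (k - 1) ≠ 0 := pow_ne_zero _ hq0
    have p2 : ((k - 1 : ℕ) : ℂ) * q ^ (k - 1 - 1) * q = ((k:ℂ) - 1) * q ^ (k - 1) := by
      rcases Nat.eq_zero_or_pos (k - 1) with h | h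
      · have : (k:ℂ) = 1 := by
          have : k = 1 := by omega
          rw [this]; simp
        rw [h, this]; simp
      · have h5 : ((k - 1 : ℕ) : ℂ) = (k:ℂ) - 1 := by
          rw [Nat.cast_sub hk]; simp
        rw [h5, mul_assoc, ← pow_succ, Nat.sub_add_cancel h]
    have p3 : F1 a q * (((k - 1 : ℕ) : ℂ) * q ^ (k - 1 - 1) * (-q ^ k / F1 a q)) =
        -(((k:ℂ) - 1) * q ^ (k - 1) * q ^ (k - 1)) := by
      have : F1 a q * (((k - 1 : ℕ) : ℂ) * q ^ (k - 1 - 1) * (-q ^ k / F1 a q)) =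
          -((((k - 1 : ℕ) : ℂ) * q ^ (k - 1 - 1) * q) * q ^ (k - 1)) * (F1 a q / F1 a q) := by
        rw [p1]; ring
      rw [this, p2, div_self hD, mul_one]
    rw [p3, p1]
    field_simp
    ring
  have hre0 : ((0:ℝ):ℂ) = 0 := Complex.ofReal_zero
  have hD0 : D 0 / (z 0) ^ (k - 1) = F1 a q / q ^ (k - 1) := by
    rw [hDdef]; simp [hz0]
  have hcχ : ContinuousAt (fun t : ℝ => (D t / (z t) ^ (k - 1)).re) 0 :=
    Complex.continuous_re.continuousAt.comp hχd.continuousAt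
  have hpos : ∀ σ : ℝ, 0 < σ * (F1 a q / q ^ (k - 1)).re →
      ∀ᶠ t in 𝓝[>] (0:ℝ), 0 < σ * (D (σ * t) / (z (σ * t)) ^ (k - 1)).re := by
    intro σ h
    have h1 : Tendsto (fun t : ℝ => σ * t) (𝓝[>] 0) (𝓝 0) := by
      have : Tendsto (fun t : ℝ => σ * t) (𝓝 0) (𝓝 (σ * 0)) := tendsto_const_nhds.mul tendsto_id
      rw [mul_zero] at this
      exact this.mono_left nhdsWithin_le_nhds
    have h2 := (hcχ.tendsto.comp h1).const_mul σ
    simp only [hD0] at h2
    exact h2.eventually_const_lt h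
  have hne : (F1 a q / q ^ (k - 1)).re ≠ 0 := by
    intro h0
    have hc := hdeg h0
    -- the derivative of χ is positive
    have hχr : HasDerivAt (fun t : ℝ => (D t / (z t) ^ (k - 1)).re)
        (2 * k - 1 - (q * F2 a q / F1 a q).re) 0 := by
      have h := Complex.reCLM.hasFDerivAt.comp_hasDerivAt (0:ℝ) hχd
      refine h.congr_deriv ?_
      rw [Complex.reCLM_apply, Complex.sub_re]
      congr 1
      simp
    set c := 2 * (k:ℝ) - 1 - (q * F2 a q / F1 a q).re with hcdef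
    have hc0 : 0 < c := by rw [hcdef]; linarith
    have hsl : ∀ᶠ t in 𝓝[≠] (0:ℝ), 0 < t⁻¹ * (D t / (z t) ^ (k - 1)).re := by
      have h := hχr.tendsto_slope_zero
      simp only [zero_add, hD0, h0, sub_zero, smul_eq_mul] at h
      exact h.eventually_const_lt hc0
    have hboth : ∀ σ : ℝ, (σ = 1 ∨ σ = -1) →
        ∀ᶠ t in 𝓝[>] (0:ℝ), 0 < σ * (D (σ * t) / (z (σ * t)) ^ (k - 1)).re := by
      intro σ hσ
      have hσσ : σ * σ = 1 := by rcases hσ with h | h <;> simp [h]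
      have hσ0 : σ ≠ 0 := by rcases hσ with h | h <;> simp [h]
      have h1 : Tendsto (fun t : ℝ => σ * t) (𝓝[>] 0) (𝓝[≠] 0) := by
        refine tendsto_nhdsWithin_iff.2 ⟨?_, ?_⟩
        · have : Tendsto (fun t : ℝ => σ * t) (𝓝 0) (𝓝 (σ * 0)) := tendsto_const_nhds.mul tendsto_id
          rw [mul_zero] at this
          exact this.mono_left nhdsWithin_le_nhds
        · filter_upwards [self_mem_nhdsWithin] with t ht
          exact mul_ne_zero hσ0 (ne_of_gt ht)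
      filter_upwards [h1.eventually hsl, self_mem_nhdsWithin] with t ht1 ht2
      rw [mem_Ioi] at ht2
      have e1 : (σ * t)⁻¹ = σ * t⁻¹ := by
        rw [mul_inv]
        congr 1
        rcases hσ with h | h <;> rw [h] <;> norm_num
      rw [e1] at ht1
      have e2 : σ * (D (σ * t) / (z (σ * t)) ^ (k - 1)).re =
          (σ * t⁻¹ * (D (σ * t) / (z (σ * t)) ^ (k - 1)).re) * t := by
        field_simp
      rw [e2]
      exact mul_pos ht1 ht2
    rcases lt_or_ge (a k) 1 with h1 | h1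
    · exact key 1 (Or.inl rfl) (hallow1 h1) (hboth 1 (Or.inl rfl))
    · exact key (-1) (Or.inr rfl) (hallow2 (by linarith)) (hboth (-1) (Or.inr rfl))
  refine ⟨hne, fun h => ?_, fun h => ?_⟩
  · by_contra hcon
    have h1 : a k < 1 := lt_of_le_of_ne (abs_le.1 (ha k)).2 hcon
    exact key 1 (Or.inl rfl) (hallow1 h1) (hpos 1 (by rw [one_mul]; exact h))
  · by_contra hcon
    have h1 : -1 < a k := lt_of_le_of_ne (abs_le.1 (ha k)).1 (Ne.symm hcon)
    exact key (-1) (Or.inr rfl) (hallow2 h1) (hpos (-1) (by linarith))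

end Pool.Agent.R222.Mand
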