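import Mathlib
import Pool.Agent.R222.Mand.Cert

set_option autoImplicit false

open Set Filter Topology

namespace Pool.Agent.R222.Mand

/-- Data of a certificate for an arc: the arc `|q| = r`, `x0 ≤ S re q ≤ x1`; bounds for the imaginary
part, a radius, the functional and the truncation. -/
structure Box where
  x0 : ℕ
  x1 : ℕ
  yl : ℕ
  yh : ℕ
  rho : ℕ
  ux : ℕ
  uy : ℤ
  U : ℕ
  RN : ℕ
  K : ℕ

/-- `∑_{j < n} |dot u (z c^(j+1))| S^(n-1-j)` in integers -/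
def loop (S : ℕ) (cx cy ux uy : ℤ) : ℕ → ℤ → ℤ → ℕ → ℕ
  | 0, _, _, T => T
  | n + 1, x, y, T => loop S cx cy ux uy n (x * cx - y * cy) (x * cy + y * cx)
      (T * S + (ux * (x * cx - y * cy) + uy * (x * cy + y * cx)).natAbs)

/-- The boolean check of one box. -/
def check (S rN : ℕ) (b : Box) : Bool :=
  Nat.ble b.x0 b.x1 && (Nat.ble b.yl b.yh && (Nat.ble (b.yl * b.yl + b.x1 * b.x1) (rN * rN) &&
  (Nat.ble (rN * rN) (b.yh * b.yh + b.x0 * b.x0) &&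
  (Nat.ble ((b.x1 - b.x0) * (b.x1 - b.x0) + (b.yh - b.yl) * (b.yh - b.yl)) (4 * (b.rho * b.rho)) &&
  (Nat.ble (b.ux * b.ux + b.uy.natAbs * b.uy.natAbs) (b.U * b.U) &&
  (Nat.ble (rN * 10000) (b.RN * S) &&
  (Nat.ble (((b.x0 + b.x1) * (b.x0 + b.x1) + (b.yl + b.yh) * (b.yl + b.yh)) * 10 ^ 8)
    ((b.RN * (2 * S)) * (b.RN * (2 * S))) &&
  (Nat.blt b.RN 10000 &&
  Nat.blt (loop (2 * S) (b.x0 + b.x1 : ℕ) (b.yl + b.yh : ℕ) b.ux b.uy b.K 1 0 0 * S *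
      (10000 - b.RN) * (10000 - b.RN) * 10 ^ (4 * b.K) +
    b.U * b.rho * 10 ^ 8 * (2 * S) ^ b.K * 10 ^ (4 * b.K) +
    b.U * b.RN ^ (b.K + 1) * (2 * S) ^ b.K * S * (10000 - b.RN))
    (b.ux * (2 * S) ^ b.K * S * (10000 - b.RN) * (10000 - b.RN) * 10 ^ (4 * b.K))))))))))

lemma loop_eq (S : ℕ) (cx cy ux uy : ℤ) (n : ℕ) (x y : ℤ) (T : ℕ) :
    (loop S cx cy ux uy n x y T : ℝ) = T * S ^ n +
      ∑ j ∈ Finset.range n, |dot (⟨ux, uy⟩ : ℂ) ((⟨x, y⟩ : ℂ) * (⟨cx, cy⟩ : ℂ) ^ (j + 1))|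
        * S ^ (n - 1 - j) := by
  induction n generalizing x y T with
  | zero => simp [loop]
  | succ n ih =>
    rw [loop, ih, Finset.sum_range_succ']
    have h1 : (⟨x, y⟩ : ℂ) * (⟨cx, cy⟩ : ℂ) = ⟨((x * cx - y * cy : ℤ) : ℝ),
        ((x * cy + y * cx : ℤ) : ℝ)⟩ := by
      apply Complex.ext <;> simp
    have h2 : ∀ j : ℕ, (⟨x, y⟩ : ℂ) * (⟨cx, cy⟩ : ℂ) ^ (j + 1 + 1) =
        (⟨((x * cx - y * cy : ℤ) : ℝ), ((x * cy + y * cx : ℤ) : ℝ)⟩ : ℂ) *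
          (⟨cx, cy⟩ : ℂ) ^ (j + 1) := by
      intro j
      rw [← h1]; ring
    have h3 : (((ux * (x * cx - y * cy) + uy * (x * cy + y * cx)).natAbs : ℕ) : ℝ) =
        |dot (⟨ux, uy⟩ : ℂ) ((⟨x, y⟩ : ℂ) * (⟨cx, cy⟩ : ℂ) ^ (0 + 1))| := by
      rw [zero_add, pow_one, h1, Nat.cast_natAbs, Int.cast_abs]
      simp only [dot]
      push_cast
      rfl
    rw [← h3]
    have h4 : ∀ j ∈ Finset.range n, |dot (⟨ux, uy⟩ : ℂ) ((⟨x, y⟩ : ℂ) *
        (⟨cx, cy⟩ : ℂ) ^ (j + 1 + 1))| * (S:ℝ) ^ (n + 1 - 1 - (j + 1)) =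
        |dot (⟨ux, uy⟩ : ℂ) ((⟨((x * cx - y * cy : ℤ) : ℝ), ((x * cy + y * cx : ℤ) : ℝ)⟩ : ℂ) *
          (⟨cx, cy⟩ : ℂ) ^ (j + 1))| * (S:ℝ) ^ (n - 1 - j) := by
      intro j hj
      have := Finset.mem_range.1 hj
      rw [h2, show n + 1 - 1 - (j + 1) = n - 1 - j by omega]
    rw [Finset.sum_congr rfl h4, show n + 1 - 1 - 0 = n by omega, Nat.cast_add, Nat.cast_mul]
    ring

lemma num_ineq {X S U rho RN ux G : ℝ} (K : ℕ) (hS : 0 < S) (hG : 0 < G)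
    (h : X * S * G * G * 10000 ^ K + U * rho * 10 ^ 8 * (2 * S) ^ K * 10000 ^ K +
      U * RN ^ (K + 1) * (2 * S) ^ K * S * G < ux * (2 * S) ^ K * S * G * G * 10000 ^ K) :
    X / (2 * S) ^ K + U * (rho / S) * (1 / (G / 10000) ^ 2) +
      U * ((RN / 10000) ^ (K + 1) * (1 / (G / 10000))) < ux := by
  set P := (2 * S) ^ K with hP
  have hPpos : 0 < P := by positivity
  set Q := (10000:ℝ) ^ K with hQ
  have hQpos : 0 < Q := by positivity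
  have e1 : (RN / 10000) ^ (K + 1) = RN ^ (K + 1) / (Q * 10000) := by
    rw [div_pow, pow_succ (10000:ℝ) K]
  rw [e1]
  generalize RN ^ (K + 1) = Y at h ⊢
  have t1 : X / P + U * (rho / S) * (1 / (G / 10000) ^ 2) + U * (Y / (Q * 10000) * (1 / (G / 10000)))
      = (X * S * G * G * Q + U * rho * 10 ^ 8 * P * Q + U * Y * P * S * G) / (P * S * G ^ 2 * Q) := by
    field_simp
    ring
  rw [t1, div_lt_iff₀ (by positivity)]
  calc _ < _ := h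
    _ = _ := by ring

set_option maxHeartbeats 4000000 in
lemma check_cert {S rN : ℕ} (hS : 0 < S) {b : Box} (h : check S rN b = true) {q : ℂ}
    (hx0 : (b.x0 : ℝ) ≤ S * q.re) (hx1 : S * q.re ≤ (b.x1 : ℝ)) (hy : 0 ≤ q.im)
    (hq : ‖q‖ * S = rN) : Cert q ⟨b.ux, b.uy⟩ := by
  simp only [check, Bool.and_eq_true, Nat.ble_eq, Nat.blt_eq] at h
  obtain ⟨c1, c2, c3, c4, c5, c6, c7, c8, c9, c10⟩ := h
  have hSr : (0:ℝ) < S := by exact_mod_cast hS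
  have k3 : (b.yl:ℝ) * b.yl + b.x1 * b.x1 ≤ rN * rN := by exact_mod_cast c3
  have k4 : (rN:ℝ) * rN ≤ b.yh * b.yh + b.x0 * b.x0 := by exact_mod_cast c4
  have k1 : (b.x0:ℝ) ≤ b.x1 := by exact_mod_cast c1
  have k2 : (b.yl:ℝ) ≤ b.yh := by exact_mod_cast c2
  have k5 : ((b.x1:ℝ) - b.x0) * (b.x1 - b.x0) + (b.yh - b.yl) * (b.yh - b.yl) ≤
      4 * (b.rho * b.rho) := by
    have : (((b.x1 - b.x0) * (b.x1 - b.x0) + (b.yh - b.yl) * (b.yh - b.yl) : ℕ) : ℝ) ≤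
      ((4 * (b.rho * b.rho) : ℕ) : ℝ) := by exact_mod_cast c5
    push_cast [Nat.cast_sub c1, Nat.cast_sub c2] at this
    exact this
  have hnorm : (S * q.re) ^ 2 + (S * q.im) ^ 2 = (rN:ℝ) ^ 2 := by
    rw [← hq, mul_pow, mul_pow, mul_pow, ← Complex.normSq_eq_norm_sq, Complex.normSq_apply]
    ring
  have hX0 : (0:ℝ) ≤ b.x0 := Nat.cast_nonneg _
  have hSy : 0 ≤ S * q.im := by positivity
  have hyl : (b.yl:ℝ) ≤ S * q.im := by
    by_contra hcon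
    push Not at hcon
    have e1 : (S * q.im) ^ 2 < (b.yl:ℝ) ^ 2 := pow_lt_pow_left₀ hcon hSy two_ne_zero
    have e2 : (S * q.re) ^ 2 ≤ (b.x1:ℝ) ^ 2 := pow_le_pow_left₀ (by linarith) hx1 2
    nlinarith
  have hyh : S * q.im ≤ (b.yh:ℝ) := by
    by_contra hcon
    push Not at hcon
    have e1 : (b.yh:ℝ) ^ 2 < (S * q.im) ^ 2 := pow_lt_pow_left₀ hcon (Nat.cast_nonneg _) two_ne_zero
    have e2 : (b.x0:ℝ) ^ 2 ≤ (S * q.re) ^ 2 := pow_le_pow_left₀ hX0 hx0 2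
    nlinarith
  set S' : ℝ := 2 * S with hS'
  have hS'pos : 0 < S' := by positivity
  set c' : ℂ := ⟨((b.x0 + b.x1 : ℕ) : ℤ), ((b.yl + b.yh : ℕ) : ℤ)⟩ with hc'
  set c : ℂ := c' / (S' : ℂ) with hc
  have hcre : c.re = ((b.x0:ℝ) + b.x1) / S' := by
    rw [hc, Complex.div_ofReal_re, hc']; push_cast; rfl
  have hcim : c.im = ((b.yl:ℝ) + b.yh) / S' := by
    rw [hc, Complex.div_ofReal_im, hc']; push_cast; rfl
  set R : ℝ := b.RN / 10000 with hR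
  have k9 : (b.RN:ℝ) < 10000 := by exact_mod_cast c9
  have hR1 : R < 1 := by rw [hR, div_lt_one (by norm_num)]; exact k9
  have hqR : ‖q‖ ≤ R := by
    have k7 : (rN:ℝ) * 10000 ≤ b.RN * S := by exact_mod_cast c7
    rw [← hq] at k7
    rw [hR, le_div_iff₀ (by norm_num)]
    have : (‖q‖ * 10000) * S ≤ b.RN * S := by linarith
    exact le_of_mul_le_mul_right this hSr
  have hcR : ‖c‖ ≤ R := by
    have k8 : (((b.x0:ℝ) + b.x1) * (b.x0 + b.x1) + (b.yl + b.yh) * (b.yl + b.yh)) * 10 ^ 8 ≤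
        (b.RN * (2 * S)) * (b.RN * (2 * S)) := by exact_mod_cast c8
    have : ‖c‖ ^ 2 ≤ R ^ 2 := by
      rw [← Complex.normSq_eq_norm_sq, Complex.normSq_apply, hcre, hcim, hR]
      have e1 : ((b.x0:ℝ) + b.x1) / S' * (((b.x0:ℝ) + b.x1) / S') +
          ((b.yl:ℝ) + b.yh) / S' * (((b.yl:ℝ) + b.yh) / S') =
          ((((b.x0:ℝ) + b.x1) * (b.x0 + b.x1) + (b.yl + b.yh) * (b.yl + b.yh)) * 10 ^ 8) /
            (S' ^ 2 * 10 ^ 8) := by field_simp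
      have e2 : ((b.RN:ℝ) / 10000) ^ 2 = ((b.RN * (2 * S)) * (b.RN * (2 * S))) /
          (S' ^ 2 * 10 ^ 8) := by
        rw [hS']; field_simp; norm_num
      rw [e1, e2]
      exact div_le_div_of_nonneg_right k8 (by positivity)
    exact (pow_le_pow_iff_left₀ (norm_nonneg _) (by positivity) two_ne_zero).1 this
  have hρ : ‖q - c‖ ≤ b.rho / S := by
    have hrho : (0:ℝ) ≤ b.rho := Nat.cast_nonneg _
    have : ‖q - c‖ ^ 2 ≤ (b.rho / S : ℝ) ^ 2 := by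
      rw [← Complex.normSq_eq_norm_sq, Complex.normSq_apply, Complex.sub_re, Complex.sub_im,
        hcre, hcim, div_pow, le_div_iff₀ (by positivity)]
      have e1 : ((q.re - ((b.x0:ℝ) + b.x1) / S') * (q.re - ((b.x0:ℝ) + b.x1) / S') +
          (q.im - ((b.yl:ℝ) + b.yh) / S') * (q.im - ((b.yl:ℝ) + b.yh) / S')) * (S:ℝ) ^ 2 =
          (S * q.re - (b.x0 + b.x1) / 2) ^ 2 + (S * q.im - (b.yl + b.yh) / 2) ^ 2 := by
        rw [hS']; field_simp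
      rw [e1]
      have e2 : (S * q.re - ((b.x0:ℝ) + b.x1) / 2) ^ 2 ≤ (((b.x1:ℝ) - b.x0) / 2) ^ 2 := by
        apply sq_le_sq'
        · linarith
        · linarith
      have e3 : (S * q.im - ((b.yl:ℝ) + b.yh) / 2) ^ 2 ≤ (((b.yh:ℝ) - b.yl) / 2) ^ 2 := by
        apply sq_le_sq'
        · linarith
        · linarith
      nlinarith
    exact (pow_le_pow_iff_left₀ (norm_nonneg _) (by positivity) two_ne_zero).1 this
  have hu : ‖(⟨b.ux, b.uy⟩ : ℂ)‖ ≤ b.U := by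
    have k6 : (b.ux:ℝ) * b.ux + (b.uy:ℝ) * b.uy ≤ b.U * b.U := by
      have : ((b.ux * b.ux + b.uy.natAbs * b.uy.natAbs : ℕ) : ℤ) ≤ ((b.U * b.U : ℕ) : ℤ) := by
        exact_mod_cast c6
      push_cast [Int.natCast_natAbs] at this
      rw [abs_mul_abs_self] at this
      exact_mod_cast this
    have : ‖(⟨b.ux, b.uy⟩ : ℂ)‖ ^ 2 ≤ (b.U:ℝ) ^ 2 := by
      rw [← Complex.normSq_eq_norm_sq, Complex.normSq_apply]
      nlinarith
    exact (pow_le_pow_iff_left₀ (norm_nonneg _) (Nat.cast_nonneg _) two_ne_zero).1 this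
  refine cert_of_center hR1 hqR hcR hρ b.K ?_
  -- the numerical inequality
  have hG : (0:ℝ) < 10000 - b.RN := by linarith
  set G : ℝ := 10000 - b.RN with hGdef
  have hT := loop_eq (2 * S) (b.x0 + b.x1 : ℕ) (b.yl + b.yh : ℕ) b.ux b.uy b.K 1 0 0
  generalize hX : loop (2 * S) (b.x0 + b.x1 : ℕ) (b.yl + b.yh : ℕ) b.ux b.uy b.K 1 0 0 = X
    at c10 hT
  have e10 : (10:ℝ) ^ (4 * b.K) = 10000 ^ b.K := by
    rw [pow_mul]; norm_num
  have k10 : (X : ℝ) * S * G * G * 10000 ^ b.K + b.U * b.rho * 10 ^ 8 * (2 * S) ^ b.K * 10000 ^ b.K +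
      b.U * b.RN ^ (b.K + 1) * (2 * S) ^ b.K * S * G <
        b.ux * (2 * S) ^ b.K * S * G * G * 10000 ^ b.K := by
    have e1 : (((10000 - b.RN : ℕ)) : ℝ) = G := by
      rw [Nat.cast_sub c9.le]; push_cast; rfl
    have := (Nat.cast_lt (α := ℝ)).2 c10
    simp only [Nat.cast_add, Nat.cast_mul, Nat.cast_pow, Nat.cast_ofNat, e1, e10] at this
    exact this
  have hsum : ∑ k ∈ Finset.range b.K, |dot (⟨b.ux, b.uy⟩ : ℂ) (c ^ (k + 1))| =
      (X : ℝ) / S' ^ b.K := by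
    rw [eq_div_iff (by positivity), hT, Finset.sum_mul]
    push_cast
    rw [zero_mul, zero_add]
    refine Finset.sum_congr rfl fun j hj => ?_
    have hjK := Finset.mem_range.1 hj
    have e0 : (⟨1, 0⟩ : ℂ) = 1 := rfl
    have e1 : dot (⟨b.ux, b.uy⟩ : ℂ) (c ^ (j + 1)) =
        dot (⟨b.ux, b.uy⟩ : ℂ) (c' ^ (j + 1)) / S' ^ (j + 1) := by
      rw [hc, div_pow, ← Complex.ofReal_pow]
      simp only [dot, Complex.div_ofReal_re, Complex.div_ofReal_im]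
      ring
    rw [e1, abs_div, abs_of_pos (show 0 < S' ^ (j + 1) by positivity)]
    have e2 : S' ^ b.K = S' ^ (b.K - 1 - j) * S' ^ (j + 1) := by
      rw [← pow_add]; congr 1; omega
    rw [e2, ← mul_assoc, div_mul_eq_mul_div, div_mul_cancel₀ _ (by positivity)]
    congr 2
    rw [hc']
    push_cast
    congr 1
    rw [show (⟨1, 0⟩ : ℂ) = 1 from rfl, one_mul]
  rw [hsum]
  have hR' : 1 - R = G / 10000 := by rw [hR, hGdef]; ring
  have hbound : (X : ℝ) / S' ^ b.K + b.U * (b.rho / S) * (1 / (1 - R) ^ 2) +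
      b.U * (R ^ (b.K + 1) * (1 / (1 - R))) < b.ux := by
    rw [hR', hR, hS']
    exact num_ineq b.K hSr hG k10
  refine lt_of_le_of_lt ?_ hbound
  have hrS : (0:ℝ) ≤ b.rho / S := by positivity
  have h1R : 0 < 1 - R := by linarith
  have hR0 : 0 ≤ R := by positivity
  gcongr

end Pool.Agent.R222.Mand
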