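import Mathlib
import Pool.Agent.R222.Mand.Check

set_option autoImplicit false

open Set Filter Topology

namespace Pool.Agent.R222.Mand

/-- a chain of boxes covering `[x, y]` -/
def chain (S rN : ℕ) : ℕ → ℕ → List Box → Bool
  | x, y, [] => Nat.beq x y
  | x, y, b :: t => Nat.beq b.x0 x && (check S rN b && chain S rN b.x1 y t)

/-- All points `q` of the upper half plane with `S |q| = rN` and `x ≤ S re q < y` have a
certificate. -/
def Cov (S rN x y : ℕ) : Prop :=
  ∀ q : ℂ, (x : ℝ) ≤ S * q.re → S * q.re < (y : ℝ) → 0 ≤ q.im → ‖q‖ * S = rN → ∃ u, Cert q u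

lemma Cov.trans {S rN x y z : ℕ} (h1 : Cov S rN x y) (h2 : Cov S rN y z) : Cov S rN x z := by
  intro q ha hb hc hd
  rcases lt_or_ge (S * q.re) (y : ℝ) with h | h
  · exact h1 q ha h hc hd
  · exact h2 q h hb hc hd

lemma chain_cov {S rN : ℕ} (hS : 0 < S) (l : List Box) (x y : ℕ) (h : chain S rN x y l = true) :
    Cov S rN x y := by
  intro q hx hy hq0 hq
  induction l generalizing x with
  | nil =>
    simp only [chain, Nat.beq_eq] at h
    subst h
    exact absurd hx (not_le.2 hy)
  | cons b t ih =>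
    simp only [chain, Bool.and_eq_true, Nat.beq_eq] at h
    obtain ⟨h1, h2, h3⟩ := h
    subst h1
    rcases le_or_gt (b.x1 : ℝ) (S * q.re) with hb | hb
    · exact ih b.x1 h3 hb
    · exact ⟨_, check_cert hS h2 hx hb.le hq0 hq⟩

end Pool.Agent.R222.Mand
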