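import Mathlib
import Pool.Agent.R222.Mand.DataA0
import Pool.Agent.R222.Mand.DataA1
import Pool.Agent.R222.Mand.DataA2
import Pool.Agent.R222.Mand.DataA3
import Pool.Agent.R222.Mand.DataB0
import Pool.Agent.R222.Mand.DataB1
import Pool.Agent.R222.Mand.DataB2
import Pool.Agent.R222.Mand.DataB3
import Pool.Agent.R222.Mand.DataB4
import Pool.Agent.R222.Mand.DataC0

set_option autoImplicit false

namespace Pool.Agent.R222.Mand

theorem covLeft : Cov 1000000000000000000000000 635606390391455493000000 0 378777074017180897500000 :=
  (((cov_DataA0.trans cov_DataA1).trans cov_DataA2).trans cov_DataA3)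

theorem covRight : Cov 1000000000000000000000000 635606390391455493000000 378777074017180914900000 628296916901953754830500 :=
  ((((cov_DataB0.trans cov_DataB1).trans cov_DataB2).trans cov_DataB3).trans cov_DataB4)

theorem covLow : Cov 1000000000000000000000000 635606390391455492000000 378777074017180896500000 378777074017180915900000 :=
  cov_DataC0

end Pool.Agent.R222.Mand
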