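import Mathlib
import Pool.Agent.R222.Mand.Cert

set_option autoImplicit false

open Set Filter Topology

namespace Pool.Agent.R222.Mand

lemma abs_im_pow_le {ε : ℂ} (hε : ‖ε‖ = 1) (n : ℕ) : |(ε ^ n).im| ≤ n * |ε.im| := by
  induction n with
  | zero => simp
  | succ n ih =>
    rw [pow_succ, Complex.mul_im]
    have h1 : |(ε ^ n).re| ≤ 1 := by
      calc _ ≤ ‖ε ^ n‖ := Complex.abs_re_le_norm _
        _ = 1 := by rw [norm_pow, hε, one_pow]
    have h2 : |ε.re| ≤ 1 := by rw [← hε]; exact Complex.abs_re_le_norm _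
    calc |(ε ^ n).re * ε.im + (ε ^ n).im * ε.re| ≤ |(ε ^ n).re * ε.im| + |(ε ^ n).im * ε.re| :=
          abs_add_le _ _
      _ = |(ε ^ n).re| * |ε.im| + |(ε ^ n).im| * |ε.re| := by rw [abs_mul, abs_mul]
      _ ≤ 1 * |ε.im| + (n * |ε.im|) * 1 := by
          refine add_le_add (mul_le_mul_of_nonneg_right h1 (abs_nonneg _)) ?_
          exact mul_le_mul ih h2 (abs_nonneg _) (by positivity)
      _ = _ := by push_cast; ring

lemma dot_eq (u z : ℂ) : dot u z = (starRingEnd ℂ u * z).re := by simp [dot]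

/-- Near the positive real axis there are no zeros: certificate from fourth powers. -/
lemma cert_near_real {q : ℂ} (hq : ‖q‖ = 6357 / 10000) (him : 0 < q.im)
    (hre : 9885 / 10000 * ‖q‖ ≤ q.re) : ∃ u, Cert q u := by
  set r : ℝ := 6357 / 10000 with hr
  have hr0 : (0:ℝ) < r := by norm_num [hr]
  set ε : ℂ := q / (r : ℂ) with hε
  have hεn : ‖ε‖ = 1 := by
    rw [hε, norm_div, Complex.norm_real, Real.norm_eq_abs, abs_of_pos hr0, hq, div_self hr0.ne']
  have hrc : (r:ℂ) ≠ 0 := by exact_mod_cast hr0.ne'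
  have hqε : q = r * ε := by
    rw [hε, mul_div_cancel₀ _ hrc]
  have hεre : ε.re = q.re / r := by rw [hε, Complex.div_ofReal_re]
  have hεim : ε.im = q.im / r := by rw [hε, Complex.div_ofReal_im]
  have hy : 0 < ε.im := by rw [hεim]; positivity
  have hx : 9885 / 10000 ≤ ε.re := by
    rw [hεre, le_div_iff₀ hr0, ← hq]; exact hre
  have hxy : ε.re ^ 2 + ε.im ^ 2 = 1 := by
    have := Complex.normSq_eq_norm_sq ε
    rw [hεn, Complex.normSq_apply] at this
    nlinarith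
  have hunit : starRingEnd ℂ ε * ε = 1 := by
    rw [mul_comm, Complex.mul_conj, Complex.normSq_eq_norm_sq, hεn]; simp
  refine ⟨-(Complex.I * ε ^ 4), ?_⟩
  unfold Cert
  -- the terms
  have hterm : ∀ k : ℕ, |dot (-(Complex.I * ε ^ 4)) (q ^ (k + 1))| ≤
      r ^ (k + 1) * |(k:ℝ) - 3| * ε.im := by
    intro k
    have e1 : starRingEnd ℂ (-(Complex.I * ε ^ 4)) * q ^ (k + 1) =
        ((r ^ (k + 1) : ℝ) : ℂ) * (Complex.I * (starRingEnd ℂ ε ^ 4 * ε ^ (k + 1))) := by
      rw [hqε]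
      simp only [map_neg, map_mul, map_pow, Complex.conj_I, mul_pow]
      push_cast
      ring
    rw [dot_eq, e1, Complex.re_ofReal_mul, abs_mul, abs_of_pos (by positivity), mul_assoc]
    refine mul_le_mul_of_nonneg_left ?_ (by positivity)
    rcases le_total 3 k with hk | hk
    · obtain ⟨j, rfl⟩ := Nat.exists_eq_add_of_le hk
      have e2 : starRingEnd ℂ ε ^ 4 * ε ^ (3 + j + 1) = ε ^ j := by
        have : starRingEnd ℂ ε ^ 4 * ε ^ (3 + j + 1) = (starRingEnd ℂ ε * ε) ^ 4 * ε ^ j := by ring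
        rw [this, hunit, one_pow, one_mul]
      rw [e2]
      have e3 : (Complex.I * ε ^ j).re = -(ε ^ j).im := by simp
      rw [e3, abs_neg]
      have := abs_im_pow_le hεn j
      rw [abs_of_pos hy] at this
      have e4 : |((3 + j : ℕ) : ℝ) - 3| = j := by
        push_cast
        rw [add_sub_cancel_left, abs_of_nonneg (Nat.cast_nonneg j)]
      rw [e4]
      exact this
    · obtain ⟨j, hj⟩ := Nat.exists_eq_add_of_le hk
      have e2 : starRingEnd ℂ ε ^ 4 * ε ^ (k + 1) = starRingEnd ℂ ε ^ j := by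
        have h4 : 4 = j + (k + 1) := by omega
        rw [h4, pow_add, mul_assoc, ← mul_pow, hunit, one_pow, mul_one]
      rw [e2]
      have e3 : (Complex.I * starRingEnd ℂ ε ^ j).re = (ε ^ j).im := by
        rw [← map_pow, Complex.mul_re, Complex.conj_im, Complex.I_re, Complex.I_im]; ring
      rw [e3]
      have := abs_im_pow_le hεn j
      rw [abs_of_pos hy] at this
      have e4 : |(k:ℝ) - 3| = j := by
        have : (3:ℝ) = k + j := by exact_mod_cast hj
        rw [this, sub_add_cancel_left, abs_neg, abs_of_nonneg (Nat.cast_nonneg j)]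
      rw [e4]
      exact this
  -- the sum
  have hr1 : r < 1 := by norm_num [hr]
  have hrn : ‖r‖ < 1 := by rwa [Real.norm_eq_abs, abs_of_pos hr0]
  have hgeo : HasSum (fun k : ℕ => ((k:ℝ) + 1) * r ^ k) (1 / (1 - r) ^ 2) := by
    have h1 := hasSum_choose_mul_geometric_of_norm_lt_one 1 hrn
    simpa using h1
  have htail : HasSum (fun k : ℕ => r ^ (k + 4 + 1) * |((k + 4 : ℕ) : ℝ) - 3|)
      (r ^ 5 * (1 / (1 - r) ^ 2)) := by
    have hfun : (fun k : ℕ => r ^ (k + 4 + 1) * |((k + 4 : ℕ) : ℝ) - 3|) =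
        fun k : ℕ => r ^ 5 * (((k:ℝ) + 1) * r ^ k) := by
      funext k
      have : |((k + 4 : ℕ) : ℝ) - 3| = k + 1 := by
        have hk0 : (0:ℝ) ≤ k := Nat.cast_nonneg k
        push_cast
        rw [abs_of_nonneg (by linarith)]
        ring
      rw [this]; ring
    rw [hfun]
    exact hgeo.mul_left (r ^ 5)
  have hall : HasSum (fun k : ℕ => r ^ (k + 1) * |(k:ℝ) - 3|)
      ((∑ k ∈ Finset.range 4, r ^ (k + 1) * |(k:ℝ) - 3|) + r ^ 5 * (1 / (1 - r) ^ 2)) := by
    rw [add_comm]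
    exact (hasSum_nat_add_iff (f := fun k : ℕ => r ^ (k + 1) * |(k:ℝ) - 3|) 4).1 htail
  have hfin : (∑ k ∈ Finset.range 4, r ^ (k + 1) * |(k:ℝ) - 3|) = 3 * r + 2 * r ^ 2 + r ^ 3 := by
    simp only [Finset.sum_range_succ, Finset.sum_range_zero]
    norm_num [abs_of_nonneg, abs_of_neg]
  rw [hfin] at hall
  have hq1 : ‖q‖ < 1 := by rw [hq]; exact hr1
  have hle : ∑' k : ℕ, |dot (-(Complex.I * ε ^ 4)) (q ^ (k + 1))| ≤
      (3 * r + 2 * r ^ 2 + r ^ 3 + r ^ 5 * (1 / (1 - r) ^ 2)) * ε.im := by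
    rw [← (hall.mul_right ε.im).tsum_eq]
    exact (summable_dot hq1 _).tsum_le_tsum hterm (hall.mul_right ε.im).summable
  refine lt_of_le_of_lt hle ?_
  have hre4 : (-(Complex.I * ε ^ 4)).re = (ε ^ 4).im := by simp
  rw [hre4]
  have him4 : (ε ^ 4).im = 4 * ε.re * (2 * ε.re ^ 2 - 1) * ε.im := by
    have e1 : (ε ^ 4).im = 4 * ε.re * ε.im * (ε.re ^ 2 - ε.im ^ 2) := by
      rw [show ε ^ 4 = (ε * ε) * (ε * ε) by ring]
      simp only [Complex.mul_im, Complex.mul_re]
      ring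
    rw [e1]
    have : ε.im ^ 2 = 1 - ε.re ^ 2 := by linarith
    rw [this]; ring
  rw [him4]
  refine mul_lt_mul_of_pos_right ?_ hy
  have hnum : 3 * r + 2 * r ^ 2 + r ^ 3 + r ^ 5 * (1 / (1 - r) ^ 2) < 3772 / 1000 := by
    rw [hr]; norm_num
  refine hnum.trans_le ?_
  set x := ε.re with hxdef
  have hx2 : (9885 / 10000 : ℝ) ^ 2 ≤ x ^ 2 := pow_le_pow_left₀ (by norm_num) hx 2
  have h1 : (954 / 1000 : ℝ) ≤ 2 * x ^ 2 - 1 := by
    have : (9885 / 10000 : ℝ) ^ 2 = 97713225 / 100000000 := by norm_num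
    rw [this] at hx2
    linarith
  calc (3772 / 1000 : ℝ) ≤ 4 * (9885 / 10000) * (954 / 1000) := by norm_num
    _ ≤ 4 * x * (2 * x ^ 2 - 1) := by
        refine mul_le_mul (by linarith) h1 (by norm_num) (by linarith)

end Pool.Agent.R222.Mand
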