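import Mathlib
import Pool.Agent.R222.Mand.Chain
import Pool.Agent.R222.Mand.Real
import Pool.Agent.R222.Mand.Data

set_option autoImplicit false

open Set Filter Topology

namespace Pool.Agent.R222.Mand

/-- `q` is a zero of a power series with constant term `1` and real coefficients in `[-1,1]`. -/
def RealSol (q : ℂ) : Prop :=
  ∃ a : ℕ → ℝ, a 0 = 1 ∧ (∀ k, |a k| ≤ 1) ∧ ∑' k, (a k : ℂ) * q ^ k = 0

lemma RealSol.not_cert {q : ℂ} (h : RealSol q) (hq : ‖q‖ < 1) (u : ℂ) : ¬ Cert q u := by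
  intro hc
  obtain ⟨a, h0, h1, h2⟩ := h
  exact cert_ne hq hc a h0 h1 h2

lemma RealSol.neg {q : ℂ} (h : RealSol q) : RealSol (-q) := by
  obtain ⟨a, h0, h1, h2⟩ := h
  refine ⟨fun k => (-1) ^ k * a k, by simp [h0], fun k => ?_, ?_⟩
  · rw [abs_mul, abs_pow, abs_neg, abs_one, one_pow, one_mul]; exact h1 k
  · rw [← h2]
    refine tsum_congr fun k => ?_
    push_cast
    rw [neg_pow q k]
    have : ((-1:ℂ) ^ k) * ((-1) ^ k) = 1 := by rw [← mul_pow]; simp
    calc (-1:ℂ) ^ k * a k * ((-1) ^ k * q ^ k) = ((-1:ℂ) ^ k * (-1) ^ k) * (a k * q ^ k) := by ring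
      _ = _ := by rw [this, one_mul]

lemma RealSol.conj {q : ℂ} (h : RealSol q) : RealSol (starRingEnd ℂ q) := by
  obtain ⟨a, h0, h1, h2⟩ := h
  refine ⟨a, h0, h1, ?_⟩
  have h3 : starRingEnd ℂ (∑' k, (a k : ℂ) * q ^ k) = 0 := by rw [h2, map_zero]
  rw [Complex.conj_tsum] at h3
  rw [← h3]
  refine tsum_congr fun k => ?_
  rw [map_mul, map_pow, Complex.conj_ofReal]

/-- scaling to a larger norm would give a certificate at the point -/
lemma no_cert_scaled {q : ℂ} (h : RealSol q) {t : ℝ} (ht : 1 ≤ t) (hq1 : t * ‖q‖ < 1) (u : ℂ) :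
    ¬ Cert ((t : ℂ) * q) u := by
  intro hc
  have ht0 : 0 < t := lt_of_lt_of_le one_pos ht
  have hn : ‖(t:ℂ) * q‖ = t * ‖q‖ := by
    rw [norm_mul, Complex.norm_real, Real.norm_eq_abs, abs_of_pos ht0]
  have h1 := cert_scale (by rw [hn]; exact hq1) hc (s := 1 / t) (by positivity)
    (by rw [div_le_one ht0]; exact ht)
  have h2 : ((1 / t : ℝ) : ℂ) * ((t:ℂ) * q) = q := by
    have : (t:ℂ) ≠ 0 := by exact_mod_cast ht0.ne'
    push_cast
    field_simp
  rw [h2] at h1
  have hq : ‖q‖ < 1 := by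
    calc ‖q‖ = 1 * ‖q‖ := (one_mul _).symm
      _ ≤ t * ‖q‖ := mul_le_mul_of_nonneg_right ht (norm_nonneg _)
      _ < 1 := hq1
  exact h.not_cert hq u h1

/-- First quadrant: location of all solutions of small modulus. -/
lemma window {q : ℂ} (h : RealSol q) (hre : 0 ≤ q.re) (him : 0 < q.im)
    (hn : ‖q‖ ≤ 635606390391455493 / 10 ^ 18) :
    635606390391455492 / 10 ^ 18 ≤ ‖q‖ ∧ 378777074017180896 / 10 ^ 18 ≤ q.re ∧
      q.re ≤ 378777074017180915 / 10 ^ 18 := by
  have hq0 : 0 < ‖q‖ := by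
    rw [norm_pos_iff]; rintro rfl; simp at him
  -- scale to the large circle
  set t : ℝ := 635606390391455493 / 10 ^ 18 / ‖q‖ with ht
  have ht1 : 1 ≤ t := by rw [ht, le_div_iff₀ hq0, one_mul]; exact hn
  have ht0 : 0 < t := lt_of_lt_of_le one_pos ht1
  have htq : t * ‖q‖ = 635606390391455493 / 10 ^ 18 := by rw [ht]; field_simp
  have htn : ‖(t:ℂ) * q‖ = 635606390391455493 / 10 ^ 18 := by
    rw [norm_mul, Complex.norm_real, Real.norm_eq_abs, abs_of_pos ht0, htq]
  have htre : ((t:ℂ) * q).re = t * q.re := Complex.re_ofReal_mul _ _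
  have htim : ((t:ℂ) * q).im = t * q.im := Complex.im_ofReal_mul _ _
  have hno : ∀ u, ¬ Cert ((t:ℂ) * q) u :=
    no_cert_scaled h ht1 (by rw [htq]; norm_num)
  have hA : ¬ (9885 / 10000 * (635606390391455493 / 10 ^ 18) ≤ t * q.re) := by
    intro hcon
    set t' : ℝ := 6357 / 10000 / ‖q‖ with ht'
    have ht'q : t' * ‖q‖ = 6357 / 10000 := by rw [ht']; field_simp
    have ht'1 : 1 ≤ t' := by
      rw [ht', le_div_iff₀ hq0, one_mul]
      exact hn.trans (by norm_num)
    have ht'0 : 0 < t' := lt_of_lt_of_le one_pos ht'1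
    have hn' : ‖(t':ℂ) * q‖ = 6357 / 10000 := by
      rw [norm_mul, Complex.norm_real, Real.norm_eq_abs, abs_of_pos ht'0, ht'q]
    have hre' : 9885 / 10000 * ‖q‖ ≤ q.re := by
      rw [← htq] at hcon
      have : t * (9885 / 10000 * ‖q‖) ≤ t * q.re := by linarith
      exact le_of_mul_le_mul_left this ht0
    obtain ⟨u, hu⟩ := cert_near_real (q := (t':ℂ) * q) hn'
      (by rw [Complex.im_ofReal_mul]; positivity)
      (by
        rw [Complex.re_ofReal_mul, norm_mul, Complex.norm_real, Real.norm_eq_abs, abs_of_pos ht'0]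
        calc 9885 / 10000 * (t' * ‖q‖) = t' * (9885 / 10000 * ‖q‖) := by ring
          _ ≤ t' * q.re := mul_le_mul_of_nonneg_left hre' ht'0.le)
    exact no_cert_scaled h ht'1 (by rw [ht'q]; norm_num) u hu
  push Not at hA
  have hno' : ∀ x y : ℕ, Cov 1000000000000000000000000 635606390391455493000000 x y →
      (x:ℝ) ≤ (1000000000000000000000000 : ℕ) * (t * q.re) →
      ((1000000000000000000000000 : ℕ):ℝ) * (t * q.re) < (y:ℝ) → False := by
    intro x y hc h1 h2
    obtain ⟨u, hu⟩ := hc ((t:ℂ) * q) (by rw [htre]; exact h1) (by rw [htre]; exact h2)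
      (by rw [htim]; positivity) (by rw [htn]; norm_num)
    exact hno u hu
  have hX0 : 0 ≤ t * q.re := by positivity
  have hX1 : 3787770740171808975 / 10 ^ 19 ≤ t * q.re := by
    by_contra hcon
    push Not at hcon
    refine hno' _ _ covLeft (by push_cast; linarith) ?_
    push_cast
    linarith
  have hX2 : t * q.re < 3787770740171809149 / 10 ^ 19 := by
    by_contra hcon
    push Not at hcon
    refine hno' _ _ covRight (by push_cast; linarith) ?_
    push_cast
    linarith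
  -- lower bound for the norm
  have hlow : 635606390391455492 / 10 ^ 18 ≤ ‖q‖ := by
    by_contra hcon
    push Not at hcon
    set t' : ℝ := 635606390391455492 / 10 ^ 18 / ‖q‖ with ht'
    have ht'q : t' * ‖q‖ = 635606390391455492 / 10 ^ 18 := by rw [ht']; field_simp
    have ht'1 : 1 ≤ t' := by
      rw [ht', le_div_iff₀ hq0, one_mul]; exact hcon.le
    have ht'0 : 0 < t' := lt_of_lt_of_le one_pos ht'1
    have hn' : ‖(t':ℂ) * q‖ = 635606390391455492 / 10 ^ 18 := by
      rw [norm_mul, Complex.norm_real, Real.norm_eq_abs, abs_of_pos ht'0, ht'q]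
    have htt : t' = 635606390391455492 / 635606390391455493 * t := by
      rw [ht', ht]; field_simp
    have hre' : ((t':ℂ) * q).re = 635606390391455492 / 635606390391455493 * (t * q.re) := by
      rw [Complex.re_ofReal_mul, htt]; ring
    obtain ⟨u, hu⟩ := covLow ((t':ℂ) * q)
      (by rw [hre']; push_cast; linarith)
      (by rw [hre']; push_cast; linarith)
      (by rw [Complex.im_ofReal_mul]; positivity)
      (by rw [hn']; norm_num)
    exact no_cert_scaled h ht'1 (by rw [ht'q]; norm_num) u hu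
  refine ⟨hlow, ?_, ?_⟩
  · -- re q = (t re q) / t
    have ht2 : t ≤ 635606390391455493 / 635606390391455492 := by
      rw [ht, div_le_iff₀ hq0]
      have : (635606390391455493:ℝ) / 635606390391455492 * (635606390391455492 / 10 ^ 18) ≤ 635606390391455493 / 635606390391455492 * ‖q‖ :=
        mul_le_mul_of_nonneg_left hlow (by norm_num)
      refine le_trans (by norm_num) this
    have h3 : 3787770740171808975 / 10 ^ 19 ≤ 635606390391455493 / 635606390391455492 * q.re :=
      hX1.trans (mul_le_mul_of_nonneg_right ht2 hre)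
    linarith
  · have : q.re ≤ t * q.re := by
      calc q.re = 1 * q.re := (one_mul _).symm
        _ ≤ _ := mul_le_mul_of_nonneg_right ht1 hre
    linarith

/-- the imaginary part in the window -/
lemma window_im {q : ℂ} (him : 0 < q.im) (hn : ‖q‖ ≤ 635606390391455493 / 10 ^ 18)
    (hl : 635606390391455492 / 10 ^ 18 ≤ ‖q‖) (h1 : 378777074017180896 / 10 ^ 18 ≤ q.re)
    (h2 : q.re ≤ 378777074017180915 / 10 ^ 18) :
    510414940715334443 / 10 ^ 18 ≤ q.im ∧ q.im ≤ 510414940715334470 / 10 ^ 18 := by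
  have hsq : ‖q‖ ^ 2 = q.re ^ 2 + q.im ^ 2 := by
    rw [← Complex.normSq_eq_norm_sq, Complex.normSq_apply]; ring
  have a1 : ‖q‖ ^ 2 ≤ (635606390391455493 / 10 ^ 18) ^ 2 := pow_le_pow_left₀ (norm_nonneg _) hn 2
  have a2 : (635606390391455492 / 10 ^ 18 : ℝ) ^ 2 ≤ ‖q‖ ^ 2 := pow_le_pow_left₀ (by norm_num) hl 2
  have a3 : (378777074017180896 / 10 ^ 18 : ℝ) ^ 2 ≤ q.re ^ 2 := pow_le_pow_left₀ (by norm_num) h1 2
  have a4 : q.re ^ 2 ≤ (378777074017180915 / 10 ^ 18 : ℝ) ^ 2 := pow_le_pow_left₀ (by linarith) h2 2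
  constructor
  · by_contra hcon
    push Not at hcon
    have : q.im ^ 2 < (510414940715334443 / 10 ^ 18 : ℝ) ^ 2 := pow_lt_pow_left₀ hcon him.le two_ne_zero
    norm_num at this a2 a4
    linarith
  · by_contra hcon
    push Not at hcon
    have : (510414940715334470 / 10 ^ 18 : ℝ) ^ 2 < q.im ^ 2 :=
      pow_lt_pow_left₀ hcon (by norm_num) two_ne_zero
    norm_num at this a1 a3
    linarith

end Pool.Agent.R222.Mand
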