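import Mathlib

set_option autoImplicit false

open Polynomial

namespace Pool.Agent.R222.Mand

/-- A polynomial has a zero near a point where the Newton step is small. -/
lemma exists_root_near (P : ℂ[X]) (c : ℂ) (hP' : P.derivative.eval c ≠ 0) :
    ∃ z, P.eval z = 0 ∧ ‖c - z‖ * ‖P.derivative.eval c‖ ≤ P.natDegree * ‖P.eval c‖ := by
  by_cases h0 : P.eval c = 0
  · exact ⟨c, h0, by simp [h0]⟩
  have hP : P ≠ 0 := by rintro rfl; simp at h0
  have hsum := (IsAlgClosed.splits P).eval_derivative_div_eval_of_ne_zero h0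
  set s := P.roots with hs
  by_contra hcon
  push Not at hcon
  have hroot : ∀ z ∈ s, P.eval z = 0 := fun z hz => (mem_roots hP).1 hz
  have hcard : (Multiset.card s : ℝ) ≤ P.natDegree := by exact_mod_cast P.card_roots'
  have hPc : 0 < ‖P.eval c‖ := norm_pos_iff.2 h0
  have hDc : 0 < ‖P.derivative.eval c‖ := norm_pos_iff.2 hP'
  rcases Nat.eq_zero_or_pos P.natDegree with hd | hd
  · have : P.derivative = 0 := by
      rw [eq_C_of_natDegree_eq_zero hd]; simp
    rw [this] at hP'; simp at hP'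
  have hdpos : (0:ℝ) < P.natDegree := by exact_mod_cast hd
  set t := ‖P.derivative.eval c‖ / (P.natDegree * ‖P.eval c‖) with ht
  have htpos : 0 < t := by positivity
  have hterm : ∀ z ∈ s, ‖1 / (c - z)‖ < t := by
    intro z hz
    have h1 := hcon z (hroot z hz)
    have hcz : 0 < ‖c - z‖ := by
      by_contra hneg
      have : ‖c - z‖ = 0 := le_antisymm (not_lt.1 hneg) (norm_nonneg _)
      rw [this, zero_mul] at h1
      have : 0 < (P.natDegree:ℝ) * ‖P.eval c‖ := by positivity
      linarith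
    rw [norm_div, norm_one, ht, div_lt_div_iff₀ hcz (by positivity), one_mul]
    linarith
  have hne : s ≠ 0 := by
    intro h
    rw [h] at hsum
    simp only [Multiset.map_zero, Multiset.sum_zero] at hsum
    rw [div_eq_zero_iff] at hsum
    rcases hsum with h | h
    · exact hP' h
    · exact h0 h
  have hlt : ‖P.derivative.eval c / P.eval c‖ < Multiset.card s * t := by
    rw [hsum]
    have hle : ‖(s.map fun z => 1 / (c - z)).sum‖ ≤ (s.map fun z => ‖1 / (c - z)‖).sum := by
      have := norm_multiset_sum_le (s.map fun z => 1 / (c - z))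
      rwa [Multiset.map_map] at this
    refine lt_of_le_of_lt hle ?_
    have h2 : (s.map fun z => ‖1 / (c - z)‖).sum < (s.map fun _ => t).sum :=
      Multiset.sum_lt_sum_of_nonempty hne hterm
    rw [Multiset.map_const', Multiset.sum_replicate, nsmul_eq_mul] at h2
    exact h2
  rw [norm_div] at hlt
  have h3 : (Multiset.card s : ℝ) * t ≤ P.natDegree * t := mul_le_mul_of_nonneg_right hcard htpos.le
  have h4 : (P.natDegree:ℝ) * t = ‖P.derivative.eval c‖ / ‖P.eval c‖ := by
    rw [ht]; field_simp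
  linarith

/-- the polynomial with a given list of coefficients -/
noncomputable def polyOf : List ℤ → ℂ[X]
  | [] => 0
  | a :: t => C (a : ℂ) + X * polyOf t

lemma polyOf_natDegree (l : List ℤ) : (polyOf l).natDegree ≤ l.length := by
  induction l with
  | nil => simp [polyOf]
  | cons a t ih =>
    rw [polyOf]
    refine (natDegree_add_le _ _).trans (max_le ?_ ?_)
    · rw [natDegree_C]; exact Nat.zero_le _
    · refine natDegree_mul_le.trans ?_
      rw [natDegree_X, List.length_cons]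
      omega

lemma polyOf_eval (l : List ℤ) (z : ℂ) :
    (polyOf l).eval z = ∑' k : ℕ, ((l.getD k 0 : ℤ) : ℂ) * z ^ k := by
  have hfin : ∀ l : List ℤ, ∑' k : ℕ, ((l.getD k 0 : ℤ) : ℂ) * z ^ k =
      ∑ k ∈ Finset.range l.length, ((l.getD k 0 : ℤ) : ℂ) * z ^ k := by
    intro l
    refine tsum_eq_sum fun k hk => ?_
    rw [Finset.mem_range, not_lt] at hk
    rw [List.getD_eq_default _ _ hk]; simp
  rw [hfin]
  induction l with
  | nil => simp [polyOf]
  | cons a t ih =>
    rw [polyOf, eval_add, eval_C, eval_mul, eval_X, ih, List.length_cons, Finset.sum_range_succ',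
      Finset.mul_sum, add_comm]
    congr 1
    · refine Finset.sum_congr rfl fun k _ => ?_
      rw [List.getD_cons_succ, pow_succ]; ring
    · simp

/-- integer evaluation of the polynomial and its derivative at `(cx + i cy) / S`; the result is
`(Vx, Vy, Dx, Dy, S ^ length)` -/
def pe (S cx cy : ℤ) : List ℤ → ℤ × ℤ × ℤ × ℤ × ℤ
  | [] => (0, 0, 0, 0, 1)
  | a :: t =>
    match pe S cx cy t with
    | (vx, vy, dx, dy, p) =>
      (a * p * S + (cx * vx - cy * vy), cx * vy + cy * vx,
        vx * S + (cx * dx - cy * dy), vy * S + (cx * dy + cy * dx), p * S)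

lemma pe_spec (S cx cy : ℤ) (hS : S ≠ 0) (l : List ℤ) :
    ((pe S cx cy l).2.2.2.2 : ℂ) ≠ 0 ∧
    (polyOf l).eval (((cx:ℂ) + cy * Complex.I) / S) * (pe S cx cy l).2.2.2.2 =
      (pe S cx cy l).1 + (pe S cx cy l).2.1 * Complex.I ∧
    (polyOf l).derivative.eval (((cx:ℂ) + cy * Complex.I) / S) * (pe S cx cy l).2.2.2.2 =
      (pe S cx cy l).2.2.1 + (pe S cx cy l).2.2.2.1 * Complex.I := by
  have hSc : (S:ℂ) ≠ 0 := by exact_mod_cast hS
  induction l with
  | nil => simp [pe, polyOf]
  | cons a t ih =>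
    obtain ⟨h1, h2, h3⟩ := ih
    rcases hpe : pe S cx cy t with ⟨vx, vy, dx, dy, p⟩
    rw [hpe] at h1 h2 h3
    simp only at h1 h2 h3
    simp only [pe, hpe]
    set c : ℂ := ((cx:ℂ) + cy * Complex.I) / S with hc
    have hcS : c * S = (cx:ℂ) + cy * Complex.I := by rw [hc]; field_simp
    refine ⟨?_, ?_, ?_⟩
    · push_cast; exact mul_ne_zero h1 hSc
    · rw [polyOf, eval_add, eval_C, eval_mul, eval_X]
      push_cast
      have : ((a:ℂ) + c * eval c (polyOf t)) * (p * S) = a * p * S + (c * S) * (eval c (polyOf t) * p) := by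
        ring
      rw [this, h2, hcS]
      ring_nf
      rw [Complex.I_sq]; ring
    · rw [polyOf, derivative_add, derivative_C, zero_add, derivative_mul, derivative_X, one_mul,
        eval_add, eval_mul, eval_X]
      push_cast
      have : (eval c (polyOf t) + c * eval c (derivative (polyOf t))) * (p * S) =
          (eval c (polyOf t) * p) * S + (c * S) * (eval c (derivative (polyOf t)) * p) := by ring
      rw [this, h2, h3, hcS]
      ring_nf
      rw [Complex.I_sq]; ring

/-- boolean test for a root within `e / S` -/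
def rootCheck (S cx cy e : ℤ) (l : List ℤ) : Bool :=
  match pe S cx cy l with
  | (vx, vy, dx, dy, _) =>
    decide (0 < dx * dx + dy * dy) &&
    decide ((l.length : ℤ) * l.length * (vx * vx + vy * vy) * (S * S) ≤ e * e * (dx * dx + dy * dy))

lemma root_of_check {S cx cy e : ℤ} (hS : 0 < S) (he : 0 ≤ e) {l : List ℤ}
    (h : rootCheck S cx cy e l = true) :
    ∃ z : ℂ, ∑' k : ℕ, ((l.getD k 0 : ℤ) : ℂ) * z ^ k = 0 ∧
      ‖((cx:ℂ) + cy * Complex.I) / S - z‖ * S ≤ e := by
  obtain ⟨h1, h2, h3⟩ := pe_spec S cx cy hS.ne' l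
  rcases hpe : pe S cx cy l with ⟨vx, vy, dx, dy, p⟩
  rw [hpe] at h1 h2 h3
  simp only [rootCheck, hpe, Bool.and_eq_true, decide_eq_true_eq] at h
  obtain ⟨k1, k2⟩ := h
  simp only at h1 h2 h3
  set c : ℂ := ((cx:ℂ) + cy * Complex.I) / S with hc
  have hSr : (0:ℝ) < S := by exact_mod_cast hS
  have hpn : 0 < ‖(p:ℂ)‖ := norm_pos_iff.2 h1
  have nsq : ∀ x y : ℤ, ‖(x:ℂ) + y * Complex.I‖ ^ 2 = (x:ℝ) * x + y * y := by
    intro x y
    rw [← Complex.normSq_eq_norm_sq, Complex.normSq_apply]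
    simp
  have hD : ‖(polyOf l).derivative.eval c‖ ^ 2 * ‖(p:ℂ)‖ ^ 2 = (dx:ℝ) * dx + dy * dy := by
    rw [← mul_pow, ← norm_mul, h3, nsq]
  have hV : ‖(polyOf l).eval c‖ ^ 2 * ‖(p:ℂ)‖ ^ 2 = (vx:ℝ) * vx + vy * vy := by
    rw [← mul_pow, ← norm_mul, h2, nsq]
  have k1' : (0:ℝ) < (dx:ℝ) * dx + dy * dy := by exact_mod_cast k1
  have k2' : (l.length : ℝ) * l.length * ((vx:ℝ) * vx + vy * vy) * (S * S) ≤
      e * e * (dx * dx + dy * dy) := by exact_mod_cast k2
  have hDne : (polyOf l).derivative.eval c ≠ 0 := by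
    intro h0
    rw [h0] at hD
    simp at hD
    linarith
  obtain ⟨z, hz, hzc⟩ := exists_root_near (polyOf l) c hDne
  refine ⟨z, by rw [← polyOf_eval]; exact hz, ?_⟩
  have hDpos : 0 < ‖(polyOf l).derivative.eval c‖ := norm_pos_iff.2 hDne
  have her : (0:ℝ) ≤ e := by exact_mod_cast he
  have hlen : ((polyOf l).natDegree : ℝ) ≤ l.length := by exact_mod_cast polyOf_natDegree l
  -- compare
  have h5 : (‖c - z‖ * S) * ‖(polyOf l).derivative.eval c‖ ≤ e * ‖(polyOf l).derivative.eval c‖ := by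
    have h6 : (l.length * ‖(polyOf l).eval c‖ * S) ^ 2 ≤ (e * ‖(polyOf l).derivative.eval c‖) ^ 2 := by
      have h7 : (l.length * ‖(polyOf l).eval c‖ * S) ^ 2 * ‖(p:ℂ)‖ ^ 2 ≤
          (e * ‖(polyOf l).derivative.eval c‖) ^ 2 * ‖(p:ℂ)‖ ^ 2 := by
        calc (l.length * ‖(polyOf l).eval c‖ * S) ^ 2 * ‖(p:ℂ)‖ ^ 2
            = l.length * l.length * (‖(polyOf l).eval c‖ ^ 2 * ‖(p:ℂ)‖ ^ 2) * (S * S) := by ring
          _ ≤ e * e * (‖(polyOf l).derivative.eval c‖ ^ 2 * ‖(p:ℂ)‖ ^ 2) := by rw [hV, hD]; exact k2'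
          _ = _ := by ring
      exact le_of_mul_le_mul_right h7 (by positivity)
    have h8 : l.length * ‖(polyOf l).eval c‖ * S ≤ e * ‖(polyOf l).derivative.eval c‖ :=
      (pow_le_pow_iff_left₀ (by positivity) (by positivity) two_ne_zero).1 h6
    calc (‖c - z‖ * S) * ‖(polyOf l).derivative.eval c‖
        = (‖c - z‖ * ‖(polyOf l).derivative.eval c‖) * S := by ring
      _ ≤ ((polyOf l).natDegree * ‖(polyOf l).eval c‖) * S := mul_le_mul_of_nonneg_right hzc hSr.le
      _ ≤ (l.length * ‖(polyOf l).eval c‖) * S := by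
          refine mul_le_mul_of_nonneg_right ?_ hSr.le
          exact mul_le_mul_of_nonneg_right hlen (norm_nonneg _)
      _ ≤ _ := h8
  exact le_of_mul_le_mul_right h5 hDpos

end Pool.Agent.R222.Mand
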