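import Mathlib
import Pool.Agent.R222.Mand.Root

set_option autoImplicit false
set_option maxRecDepth 100000

namespace Pool.Agent.R222.Mand

/-- coefficients of a polynomial with a zero very close to the optimum -/
def rootList : List ℤ := [1, -1, 1, 1, 1, -1, -1, -1, -1, 1, 1, 1, -1, -1, -1, 1, 1, 1, 1, -1,
  -1, -1, 1, 1, 1, -1, -1, -1, -1, 1, 1, 1, -1, -1, -1, -1, 1, 1, 1, -1, -1, -1, 1, 1, 1, 1,
  -1, -1, -1, 1, 1, 1, -1, -1, -1, -1, 1, 1, 1, -1, -1, -1, -1, 1, 1, 1, -1, -1, -1, 1, 1, 1,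
  1, -1, -1, -1, 1, 1, 1, -1, -1, -1, -1, 1, 1, 1, -1, -1, -1, 1, 1, 1, 1, -1, -1, -1, 1, 1, 1,
  1, -1, -1, -1, 1, 1, 1, -1, -1, -1, -1, 1, 1, 1, -1, -1, -1, 1, 1, 1, 1, -1]

lemma rootList_ok : rootCheck 1000000000000000000000000000000 378777074017180905751270890866 510414940715334451548669464157 50 rootList = true := by decide +kernel

lemma rootList_head : rootList.getD 0 0 = 1 := rfl

lemma rootList_mem : ∀ x ∈ rootList, x = 1 ∨ x = -1 := by decide +kernel

end Pool.Agent.R222.Mand
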