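import Mathlib
import Pool.Agent.R222.Mand.Check
import Pool.Agent.R222.Mand.Root
import Pool.Agent.R222.Mand.Diff

set_option autoImplicit false
set_option maxRecDepth 100000

open Set Filter Topology

namespace Pool.Agent.R222.Mand

/-- Upper bound for the support sum over a disc, from a finite computation at its centre. -/
lemma sum_le_of_center {q c u : ℂ} {R ρ : ℝ} (hR1 : R < 1) (hq : ‖q‖ ≤ R) (hc : ‖c‖ ≤ R)
    (hρ : ‖q - c‖ ≤ ρ) (K : ℕ) :
    ∑' k : ℕ, |dot u (q ^ (k + 1))| ≤ ∑ k ∈ Finset.range K, |dot u (c ^ (k + 1))| +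
      ‖u‖ * ρ * (1 / (1 - R) ^ 2) + ‖u‖ * (R ^ (K + 1) * (1 / (1 - R))) := by
  have hR0 : 0 ≤ R := (norm_nonneg q).trans hq
  have hRn : ‖R‖ < 1 := by rwa [Real.norm_eq_abs, abs_of_nonneg hR0]
  have hgeo : HasSum (fun k : ℕ => ((k:ℝ) + 1) * R ^ k) (1 / (1 - R) ^ 2) := by
    have h1 := hasSum_choose_mul_geometric_of_norm_lt_one 1 hRn
    simpa using h1
  have hsc : Summable fun k : ℕ => |dot u (c ^ (k + 1))| := summable_dot (lt_of_le_of_lt hc hR1) u
  have hsq : Summable fun k : ℕ => |dot u (q ^ (k + 1))| := summable_dot (lt_of_le_of_lt hq hR1) u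
  have h1 : ∑' k : ℕ, |dot u (q ^ (k + 1))| ≤
      ∑' k : ℕ, (|dot u (c ^ (k + 1))| + ‖u‖ * ρ * (((k:ℝ) + 1) * R ^ k)) := by
    refine hsq.tsum_le_tsum (fun k => ?_) (hsc.add (hgeo.summable.mul_left _))
    have h2 : dot u (q ^ (k + 1)) = dot u (c ^ (k + 1)) + dot u (q ^ (k + 1) - c ^ (k + 1)) := by
      rw [dot_sub]; ring
    rw [h2]
    refine (abs_add_le _ _).trans (add_le_add le_rfl ?_)
    refine (abs_dot_le _ _).trans ?_
    rw [mul_assoc]
    refine mul_le_mul_of_nonneg_left ?_ (norm_nonneg _)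
    refine (pow_diff_le hq hc k).trans ?_
    rw [mul_comm ρ]
    exact mul_le_mul_of_nonneg_left hρ (by positivity)
  refine h1.trans ?_
  rw [hsc.tsum_add (hgeo.summable.mul_left _), tsum_mul_left, hgeo.tsum_eq]
  have h3 : ∑' k : ℕ, |dot u (c ^ (k + 1))| ≤ ∑ k ∈ Finset.range K, |dot u (c ^ (k + 1))| +
      ‖u‖ * (R ^ (K + 1) * (1 / (1 - R))) := by
    rw [← hsc.sum_add_tsum_nat_add K]
    refine add_le_add le_rfl ?_
    have h4 : HasSum (fun k : ℕ => ‖u‖ * (R ^ (K + 1) * R ^ k)) (‖u‖ * (R ^ (K + 1) * (1 / (1 - R)))) := by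
      have := hasSum_geometric_of_lt_one hR0 hR1
      rw [← one_div] at this
      exact (this.mul_left _).mul_left _
    rw [← h4.tsum_eq]
    refine ((summable_nat_add_iff K).2 hsc).tsum_le_tsum (fun k => ?_) h4.summable
    refine (abs_dot_le _ _).trans ?_
    rw [norm_pow]
    refine mul_le_mul_of_nonneg_left ?_ (norm_nonneg _)
    rw [← pow_add]
    refine (pow_le_pow_left₀ (norm_nonneg _) hc _).trans (le_of_eq ?_)
    congr 1
    omega
  linarith

/-- sign test for the terms at the centre -/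
def sgnCheck (S cx cy ux uy : ℤ) : List ℤ → ℤ → ℤ → ℤ → ℤ → ℤ → Bool
  | [], _, _, _, _, _ => true
  | s :: l, k, x, y, p, t =>
    decide (4 * k * (p * (6357 * S)) ≤
      -s * (ux * (x * cx - y * cy) + uy * (x * cy + y * cx)) * (t * 10000)) &&
    sgnCheck S cx cy ux uy l (k + 1) (x * cx - y * cy) (x * cy + y * cx) (p * (6357 * S)) (t * 10000)

lemma sgnCheck_spec (S cx cy ux uy : ℤ) (l : List ℤ) (k x y p t : ℤ)
    (h : sgnCheck S cx cy ux uy l k x y p t = true) (j : ℕ) (hj : j < l.length) :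
    4 * ((k:ℝ) + j) * (p * (6357 * S) ^ (j + 1)) ≤
      -(l.getD j 0 : ℤ) * dot (⟨ux, uy⟩ : ℂ) ((⟨x, y⟩ : ℂ) * (⟨cx, cy⟩ : ℂ) ^ (j + 1)) *
        (t * 10000 ^ (j + 1)) := by
  induction l generalizing k x y p t j with
  | nil => simp at hj
  | cons s l ih =>
    simp only [sgnCheck, Bool.and_eq_true, decide_eq_true_eq] at h
    obtain ⟨h1, h2⟩ := h
    have e1 : (⟨x, y⟩ : ℂ) * (⟨cx, cy⟩ : ℂ) = ⟨((x * cx - y * cy : ℤ) : ℝ),
        ((x * cy + y * cx : ℤ) : ℝ)⟩ := by
      apply Complex.ext <;> simp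
    cases j with
    | zero =>
      have h1' := (Int.cast_le (R := ℝ)).2 h1
      push_cast at h1'
      rw [zero_add, pow_one, pow_one, e1, List.getD_cons_zero]
      simp only [dot]
      push_cast
      linarith
    | succ j =>
      have h3 := ih (k + 1) (x * cx - y * cy) (x * cy + y * cx) (p * (6357 * S)) (t * 10000) h2 j
        (by simpa using hj)
      rw [List.getD_cons_succ]
      have e2 : (⟨x, y⟩ : ℂ) * (⟨cx, cy⟩ : ℂ) ^ (j + 1 + 1) =
          (⟨((x * cx - y * cy : ℤ) : ℝ), ((x * cy + y * cx : ℤ) : ℝ)⟩ : ℂ) *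
            (⟨cx, cy⟩ : ℂ) ^ (j + 1) := by
        rw [← e1]; ring
      rw [e2]
      push_cast at h3 ⊢
      calc _ = 4 * ((k:ℝ) + 1 + j) * (p * (6357 * S) * (6357 * S) ^ (j + 1)) := by ring
        _ ≤ _ := h3
        _ = _ := by ring

/-- the list of the coefficients `1, …, 64` -/
def sgns : List ℤ := [-1, 1, 1, 1, -1, -1, -1, -1, 1, 1, 1, -1, -1, -1, 1, 1, 1, 1, -1, -1, -1, 1,
  1, 1, -1, -1, -1, -1, 1, 1, 1, -1, -1, -1, -1, 1, 1, 1, -1, -1, -1, 1, 1, 1, 1, -1, -1, -1, 1, 1,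
  1, -1, -1, -1, -1, 1, 1, 1, -1, -1, -1, -1, 1, 1]

lemma sgn_ok : sgnCheck 1000000000000000000 378777074017180906 510414940715334457 10000 (-2905)
    sgns 1 1 0 1 1 = true := by decide +kernel

lemma loop_ok : Nat.ble (loop 1000000000000000000 378777074017180906 510414940715334457 10000 (-2905)
    100 1 0 0 * 10 ^ 12) ((10000 * 10 ^ 12 + 1) * 1000000000000000000 ^ 100) = true := by
  decide +kernel

/-- test for the derivative -/
def derCheck : Bool :=
  match pe 1000000000000000000 378777074017180906 510414940715334457 (1 :: sgns) with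
  | (_, _, dx, dy, p) => decide (0 < p) && decide (-p ≤ 10000 * dx + 16253 * p) &&
      decide (10000 * dx + 16253 * p ≤ p) && decide (-p ≤ 10000 * dy - 43753 * p) &&
      decide (10000 * dy - 43753 * p ≤ p)

lemma der_ok : derCheck = true := by decide +kernel

end Pool.Agent.R222.Mand
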