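import Mathlib
import Pool.Agent.R222.Mand.Local

set_option autoImplicit false
set_option maxRecDepth 100000

open Set Filter Topology

namespace Pool.Agent.R222.Mand

/-- the centre of the window -/
noncomputable def cc : ℂ := ⟨378777074017180906 / 10 ^ 18, 510414940715334457 / 10 ^ 18⟩

/-- integer version of the centre -/
noncomputable def cz : ℂ := ⟨((378777074017180906 : ℤ) : ℝ), ((510414940715334457 : ℤ) : ℝ)⟩

/-- the support direction -/
noncomputable def uu : ℂ := ⟨((10000 : ℤ) : ℝ), ((-2905 : ℤ) : ℝ)⟩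

/-- The window. -/
def InW (q : ℂ) : Prop :=
  ‖q‖ ≤ 635606390391455493 / 10 ^ 18 ∧ 378777074017180896 / 10 ^ 18 ≤ q.re ∧
    q.re ≤ 378777074017180915 / 10 ^ 18 ∧ 510414940715334443 / 10 ^ 18 ≤ q.im ∧
    q.im ≤ 510414940715334470 / 10 ^ 18

lemma sgns_length : sgns.length = 64 := rfl

lemma sgns_pm (j : ℕ) (hj : j < 64) : sgns.getD j 0 = 1 ∨ sgns.getD j 0 = -1 := by
  have h : ∀ j : Fin 64, sgns.getD (j : ℕ) 0 = 1 ∨ sgns.getD (j : ℕ) 0 = -1 := by decide +kernel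
  exact h ⟨j, hj⟩

lemma cz_eq : cz = cc * ((10 ^ 18 : ℝ) : ℂ) := by
  apply Complex.ext
  · rw [Complex.re_mul_ofReal]; simp [cz, cc]
  · rw [Complex.im_mul_ofReal]; simp [cz, cc]

lemma norm_cc : ‖cc‖ ≤ 6357 / 10000 := by
  have : ‖cc‖ ^ 2 ≤ (6357 / 10000 : ℝ) ^ 2 := by
    rw [← Complex.normSq_eq_norm_sq, Complex.normSq_apply, cc]
    norm_num
  exact (pow_le_pow_iff_left₀ (norm_nonneg _) (by norm_num) two_ne_zero).1 this

lemma norm_uu : ‖uu‖ ≤ 10414 := by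
  have : ‖uu‖ ^ 2 ≤ (10414 : ℝ) ^ 2 := by
    rw [← Complex.normSq_eq_norm_sq, Complex.normSq_apply, uu]
    norm_num
  exact (pow_le_pow_iff_left₀ (norm_nonneg _) (by norm_num) two_ne_zero).1 this

lemma InW.near {q : ℂ} (h : InW q) : ‖q - cc‖ ≤ 2 / 10 ^ 17 := by
  obtain ⟨_, h1, h2, h3, h4⟩ := h
  have : ‖q - cc‖ ^ 2 ≤ (2 / 10 ^ 17 : ℝ) ^ 2 := by
    rw [← Complex.normSq_eq_norm_sq, Complex.normSq_apply, Complex.sub_re, Complex.sub_im]
    have e1 : (q.re - cc.re) ^ 2 ≤ (1 / 10 ^ 17 : ℝ) ^ 2 := by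
      apply sq_le_sq'
      · simp only [cc]; norm_num at h1 ⊢; linarith
      · simp only [cc]; norm_num at h2 ⊢; linarith
    have e2 : (q.im - cc.im) ^ 2 ≤ (14 / 10 ^ 18 : ℝ) ^ 2 := by
      apply sq_le_sq'
      · simp only [cc]; norm_num at h3 ⊢; linarith
      · simp only [cc]; norm_num at h4 ⊢; linarith
    calc _ = (q.re - cc.re) ^ 2 + (q.im - cc.im) ^ 2 := by ring
      _ ≤ (1 / 10 ^ 17 : ℝ) ^ 2 + (14 / 10 ^ 18 : ℝ) ^ 2 := add_le_add e1 e2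
      _ ≤ _ := by norm_num
  exact (pow_le_pow_iff_left₀ (norm_nonneg _) (by norm_num) two_ne_zero).1 this

lemma InW.norm_le {q : ℂ} (h : InW q) : ‖q‖ ≤ 6357 / 10000 := h.1.trans (by norm_num)

lemma InW.sum_le {q : ℂ} (h : InW q) :
    ∑' k : ℕ, |dot uu (q ^ (k + 1))| ≤ 10000 + 1 / 10 ^ 11 := by
  have h1 := sum_le_of_center (u := uu) (R := 6357 / 10000) (by norm_num) h.norm_le norm_cc h.near 100
  refine h1.trans ?_
  have hT := loop_eq 1000000000000000000 378777074017180906 510414940715334457 10000 (-2905) 100 1 0 0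
  have hX := loop_ok
  rw [Nat.ble_eq] at hX
  generalize loop 1000000000000000000 378777074017180906 510414940715334457 10000 (-2905) 100 1 0 0
    = X at hT hX
  have hXr := (Nat.cast_le (α := ℝ)).2 hX
  push_cast at hXr
  have hsum : ∑ k ∈ Finset.range 100, |dot uu (cc ^ (k + 1))| =
      (X : ℝ) / (10 ^ 18 : ℝ) ^ 100 := by
    rw [eq_div_iff (by positivity), hT, Finset.sum_mul]
    push_cast
    rw [zero_mul, zero_add]
    refine Finset.sum_congr rfl fun j hj => ?_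
    have hjK := Finset.mem_range.1 hj
    have e1 : dot uu (cz ^ (j + 1)) = dot uu (cc ^ (j + 1)) * (10 ^ 18 : ℝ) ^ (j + 1) := by
      rw [cz_eq, mul_pow, ← Complex.ofReal_pow]
      simp only [dot, Complex.re_mul_ofReal, Complex.im_mul_ofReal]
      ring
    have e2 : |dot uu (cz ^ (j + 1))| = |dot uu (cc ^ (j + 1))| * (10 ^ 18 : ℝ) ^ (j + 1) := by
      rw [e1, abs_mul, abs_of_pos (show (0:ℝ) < (10 ^ 18 : ℝ) ^ (j + 1) by positivity)]
    have e3 : |dot uu (cc ^ (j + 1))| * (10 ^ 18 : ℝ) ^ 100 =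
        |dot uu (cz ^ (j + 1))| * (10 ^ 18 : ℝ) ^ (100 - 1 - j) := by
      rw [e2, mul_assoc, ← pow_add]
      congr 2
      omega
    rw [e3]
    have e4 : ((1000000000000000000 : ℝ)) = 10 ^ 18 := by norm_num
    rw [e4]
    congr 2
    simp only [cz, uu]
    push_cast
    rw [show (⟨1, 0⟩ : ℂ) = 1 from rfl, one_mul]
  rw [hsum]
  have hX' : (X : ℝ) / (10 ^ 18 : ℝ) ^ 100 ≤ 10000 + 1 / 10 ^ 12 := by
    rw [div_le_iff₀ (by positivity)]
    refine le_of_mul_le_mul_right ?_ (show (0:ℝ) < 1000000000000 by norm_num)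
    exact hXr.trans (le_of_eq (by norm_num))
  have hu := norm_uu
  have hu0 := norm_nonneg uu
  have p1 : ‖uu‖ * (2 / 10 ^ 17) * (1 / (1 - 6357 / 10000) ^ 2) ≤ 10414 * (2 / 10 ^ 17) *
      (1 / (1 - 6357 / 10000) ^ 2) := by
    gcongr
  have p2 : ‖uu‖ * ((6357 / 10000) ^ (100 + 1) * (1 / (1 - 6357 / 10000))) ≤
      10414 * ((6357 / 10000) ^ (100 + 1) * (1 / (1 - 6357 / 10000))) := by
    gcongr
  have p3 : (10414 : ℝ) * (2 / 10 ^ 17) * (1 / (1 - 6357 / 10000) ^ 2) ≤ 2 / 10 ^ 12 := by norm_num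
  have p4 : (10414 : ℝ) * ((6357 / 10000) ^ (100 + 1) * (1 / (1 - 6357 / 10000))) ≤ 1 / 10 ^ 12 := by
    norm_num
  have p5 : (1:ℝ) / 10 ^ 12 + 2 / 10 ^ 12 + 1 / 10 ^ 12 ≤ 1 / 10 ^ 11 := by norm_num
  linarith

lemma sgn_center (j : ℕ) (hj : j < 64) :
    4 * ((j:ℝ) + 1) * (6357 / 10000) ^ (j + 1) ≤ -(sgns.getD j 0 : ℤ) * dot uu (cc ^ (j + 1)) := by
  have h := sgnCheck_spec _ _ _ _ _ _ _ _ _ _ _ sgn_ok j (by rw [sgns_length]; exact hj)
  have e1 : (⟨((1:ℤ):ℝ), ((0:ℤ):ℝ)⟩ : ℂ) = 1 := by apply Complex.ext <;> simp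
  rw [e1, one_mul] at h
  change 4 * (((1:ℤ):ℝ) + j) * (((1:ℤ):ℝ) * (6357 * ((1000000000000000000:ℤ):ℝ)) ^ (j + 1)) ≤
      -(sgns.getD j 0 : ℤ) * dot uu (cz ^ (j + 1)) * (((1:ℤ):ℝ) * 10000 ^ (j + 1)) at h
  have e2 : dot uu (cz ^ (j + 1)) = dot uu (cc ^ (j + 1)) * (10 ^ 18 : ℝ) ^ (j + 1) := by
    rw [cz_eq, mul_pow, ← Complex.ofReal_pow]
    simp only [dot, Complex.re_mul_ofReal, Complex.im_mul_ofReal]
    ring
  rw [e2] at h
  push_cast at h
  rw [one_mul, one_mul] at h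
  have e4 : ((1000000000000000000 : ℝ)) = 10 ^ 18 := by norm_num
  rw [e4, mul_pow] at h
  have hP : (0:ℝ) < (10 ^ 18 : ℝ) ^ (j + 1) := by positivity
  have hQ : (0:ℝ) < (10000 : ℝ) ^ (j + 1) := by positivity
  rw [div_pow, mul_div_assoc', div_le_iff₀ hQ]
  have : (4 * ((j:ℝ) + 1) * 6357 ^ (j + 1)) * (10 ^ 18 : ℝ) ^ (j + 1) ≤
      (-(sgns.getD j 0 : ℤ) * dot uu (cc ^ (j + 1)) * 10000 ^ (j + 1)) * (10 ^ 18 : ℝ) ^ (j + 1) := by
    calc _ = 4 * (1 + (j:ℝ)) * (6357 ^ (j + 1) * (10 ^ 18 : ℝ) ^ (j + 1)) := by ring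
      _ ≤ _ := h
      _ = _ := by ring
  exact le_of_mul_le_mul_right this hP

lemma InW.sgn {q : ℂ} (h : InW q) (j : ℕ) (hj : j < 64) :
    2 * ((j:ℝ) + 1) * (6357 / 10000) ^ (j + 1) ≤ -(sgns.getD j 0 : ℤ) * dot uu (q ^ (j + 1)) := by
  have h1 := sgn_center j hj
  have h2 : |dot uu (q ^ (j + 1)) - dot uu (cc ^ (j + 1))| ≤
      10414 * (((j:ℝ) + 1) * (6357 / 10000) ^ j * (2 / 10 ^ 17)) := by
    rw [← dot_sub]
    refine (abs_dot_le _ _).trans ?_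
    refine mul_le_mul norm_uu ?_ (norm_nonneg _) (by norm_num)
    refine (pow_diff_le h.norm_le norm_cc j).trans ?_
    exact mul_le_mul_of_nonneg_left h.near (by positivity)
  have h3 : (10414:ℝ) * (((j:ℝ) + 1) * (6357 / 10000) ^ j * (2 / 10 ^ 17)) ≤
      2 * ((j:ℝ) + 1) * (6357 / 10000) ^ (j + 1) := by
    rw [pow_succ]
    have hp : (0:ℝ) ≤ ((j:ℝ) + 1) * (6357 / 10000) ^ j := by positivity
    calc (10414:ℝ) * (((j:ℝ) + 1) * (6357 / 10000) ^ j * (2 / 10 ^ 17))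
        = (((j:ℝ) + 1) * (6357 / 10000) ^ j) * (10414 * (2 / 10 ^ 17)) := by ring
      _ ≤ (((j:ℝ) + 1) * (6357 / 10000) ^ j) * (2 * (6357 / 10000)) :=
          mul_le_mul_of_nonneg_left (by norm_num) hp
      _ = _ := by ring
  have h4 := abs_le.1 (h2.trans h3)
  rcases sgns_pm j hj with hs | hs
  · rw [hs] at h1 ⊢
    push_cast at h1 ⊢
    linarith [h4.2]
  · rw [hs] at h1 ⊢
    push_cast at h1 ⊢
    linarith [h4.1]

/-- The coefficients are almost determined. -/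
lemma InW.coef {q : ℂ} (h : InW q) {a : ℕ → ℝ} (h0 : a 0 = 1) (ha : ∀ k, |a k| ≤ 1)
    (hF : F a q = 0) (j : ℕ) (hj : j < 64) :
    |a (j + 1) - (sgns.getD j 0 : ℤ)| * (((j:ℝ) + 1) * (6357 / 10000) ^ (j + 1)) ≤
      5 / 10 ^ 12 := by
  have hq : ‖q‖ < 1 := lt_of_le_of_lt h.norm_le (by norm_num)
  have hs := summable_F ha hq
  have hz : (1:ℂ) + ∑' k, (a (k + 1) : ℂ) * q ^ (k + 1) = 0 := by
    have := hF
    unfold F at this
    rw [hs.tsum_eq_zero_add] at this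
    simpa [h0] using this
  set L : ℂ →L[ℝ] ℝ := uu.re • Complex.reCLM + uu.im • Complex.imCLM with hL
  have hLd : ∀ z, L z = dot uu z := fun z => by simp [hL, dot]
  have hs' : Summable fun k => (a (k + 1) : ℂ) * q ^ (k + 1) := (summable_nat_add_iff 1).2 hs
  have h1 : L (1 + ∑' k, (a (k + 1) : ℂ) * q ^ (k + 1)) = 0 := by rw [hz, map_zero]
  rw [map_add, L.map_tsum hs', hLd] at h1
  have h2 : dot uu 1 = 10000 := by simp [dot, uu]
  rw [h2] at h1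
  have h3 : ∀ k : ℕ, L ((a (k + 1) : ℂ) * q ^ (k + 1)) = a (k + 1) * dot uu (q ^ (k + 1)) := by
    intro k
    rw [hLd]
    simp only [dot, Complex.mul_re, Complex.mul_im, Complex.ofReal_re, Complex.ofReal_im]
    ring
  simp_rw [h3] at h1
  have hsd := summable_dot hq uu
  have hle : ∀ k : ℕ, |a (k + 1) * dot uu (q ^ (k + 1))| ≤ |dot uu (q ^ (k + 1))| := by
    intro k
    rw [abs_mul]
    calc _ ≤ 1 * |dot uu (q ^ (k + 1))| := mul_le_mul_of_nonneg_right (ha _) (abs_nonneg _)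
      _ = _ := one_mul _
  have hsa : Summable fun k : ℕ => a (k + 1) * dot uu (q ^ (k + 1)) :=
    Summable.of_norm_bounded hsd fun k => by rw [Real.norm_eq_abs]; exact hle k
  have hterm : |dot uu (q ^ (j + 1))| + a (j + 1) * dot uu (q ^ (j + 1)) ≤ 1 / 10 ^ 11 := by
    have h5 : |dot uu (q ^ (j + 1))| + a (j + 1) * dot uu (q ^ (j + 1)) ≤
        ∑' k : ℕ, (|dot uu (q ^ (k + 1))| + a (k + 1) * dot uu (q ^ (k + 1))) := by
      refine (hsd.add hsa).le_tsum (f := fun k : ℕ => |dot uu (q ^ (k + 1))| +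
        a (k + 1) * dot uu (q ^ (k + 1))) j (fun i _ => ?_)
      linarith [(abs_le.1 (hle i)).1]
    refine h5.trans ?_
    rw [hsd.tsum_add hsa]
    have := h.sum_le
    linarith
  have hsgn := h.sgn j hj
  have hab := abs_le.1 (ha (j + 1))
  set w : ℝ := ((j:ℝ) + 1) * (6357 / 10000) ^ (j + 1) with hw
  have hw0 : 0 ≤ w := by positivity
  have hsgn' : 2 * w ≤ -(sgns.getD j 0 : ℤ) * dot uu (q ^ (j + 1)) := by
    rw [hw]; linarith
  rcases sgns_pm j hj with hs | hs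
  · rw [hs] at hsgn' ⊢
    push_cast at hsgn' ⊢
    have hd : dot uu (q ^ (j + 1)) ≤ 0 := by linarith
    rw [abs_of_nonpos hd] at hterm
    rw [abs_of_nonpos (by linarith)]
    nlinarith
  · rw [hs] at hsgn' ⊢
    push_cast at hsgn' ⊢
    have hd : 0 ≤ dot uu (q ^ (j + 1)) := by linarith
    rw [abs_of_nonneg hd] at hterm
    rw [abs_of_nonneg (by linarith)]
    nlinarith

end Pool.Agent.R222.Mand
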