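import Mathlib
import Pool.Agent.R222.Mand.LocalB
import Pool.Agent.R222.Mand.Bang

set_option autoImplicit false
set_option maxRecDepth 100000

open Set Filter Topology Polynomial

namespace Pool.Agent.R222.Mand

/-- the reference coefficients -/
noncomputable def bb (k : ℕ) : ℝ := (((1 :: sgns).getD k 0 : ℤ) : ℝ)

lemma bb_le (k : ℕ) : |bb k| ≤ 1 := by
  unfold bb
  cases k with
  | zero => simp
  | succ j =>
    rw [List.getD_cons_succ]
    by_cases hj : j < 64
    · rcases sgns_pm j hj with h | h <;> rw [h] <;> simp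
    · rw [List.getD_eq_default _ _ (by rw [sgns_length]; omega)]; simp

lemma F_bb (z : ℂ) : F bb z = (polyOf (1 :: sgns)).eval z := by
  rw [polyOf_eval]
  unfold F bb
  refine tsum_congr fun k => ?_
  push_cast
  rfl

lemma F1_bb {z : ℂ} (hz : ‖z‖ < 1) : F1 bb z = (polyOf (1 :: sgns)).derivative.eval z := by
  have h1 := hasDerivAt_F bb_le hz
  have h2 := (polyOf (1 :: sgns)).hasDerivAt z
  have h3 : F bb = fun z => (polyOf (1 :: sgns)).eval z := funext F_bb
  rw [h3] at h1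
  exact h1.unique h2

lemma norm_le_of_parts {w : ℂ} {e : ℝ} (h1 : |w.re| ≤ e) (h2 : |w.im| ≤ e) : ‖w‖ ≤ 2 * e := by
  have := Complex.norm_le_abs_re_add_abs_im w
  linarith

lemma F1_bb_center : ‖F1 bb cc - ⟨-16253 / 10000, 43753 / 10000⟩‖ ≤ 2 / 10000 := by
  have hcc : ‖cc‖ < 1 := lt_of_le_of_lt norm_cc (by norm_num)
  rw [F1_bb hcc]
  obtain ⟨_, _, h3⟩ := pe_spec 1000000000000000000 378777074017180906 510414940715334457
    (by norm_num) (1 :: sgns)
  have hd := der_ok
  unfold derCheck at hd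
  rcases hpe : pe 1000000000000000000 378777074017180906 510414940715334457 (1 :: sgns) with
    ⟨vx, vy, dx, dy, p⟩
  rw [hpe] at h3 hd
  simp only [Bool.and_eq_true, decide_eq_true_eq] at hd h3
  obtain ⟨⟨⟨⟨hp, k1⟩, k2⟩, k3⟩, k4⟩ := hd
  have hcc' : (((378777074017180906 : ℤ) : ℂ) + ((510414940715334457 : ℤ) : ℂ) * Complex.I) /
      ((1000000000000000000 : ℤ) : ℂ) = cc := by
    rw [div_eq_iff (by norm_num)]
    have e : ((1000000000000000000 : ℤ) : ℂ) = ((10 ^ 18 : ℝ) : ℂ) := by push_cast; norm_num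
    rw [e, ← cz_eq]
    apply Complex.ext <;> simp [cz]
  rw [hcc'] at h3
  set D := eval cc (derivative (polyOf (1 :: sgns))) with hD
  have hpr : (0:ℝ) < p := by exact_mod_cast hp
  have hre : D.re * p = dx := by
    have := congrArg Complex.re h3
    simpa using this
  have him : D.im * p = dy := by
    have := congrArg Complex.im h3
    simpa using this
  have k1' := (Int.cast_le (R := ℝ)).2 k1
  have k2' := (Int.cast_le (R := ℝ)).2 k2
  have k3' := (Int.cast_le (R := ℝ)).2 k3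
  have k4' := (Int.cast_le (R := ℝ)).2 k4
  push_cast at k1' k2' k3' k4'
  rw [← hre] at k1' k2'
  rw [← him] at k3' k4'
  have m1 : -1 ≤ 10000 * D.re + 16253 := by
    have : (-1) * (p:ℝ) ≤ (10000 * D.re + 16253) * p := by linarith
    exact le_of_mul_le_mul_right this hpr
  have m2 : 10000 * D.re + 16253 ≤ 1 := by
    have : (10000 * D.re + 16253) * (p:ℝ) ≤ 1 * p := by linarith
    exact le_of_mul_le_mul_right this hpr
  have m3 : -1 ≤ 10000 * D.im - 43753 := by
    have : (-1) * (p:ℝ) ≤ (10000 * D.im - 43753) * p := by linarith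
    exact le_of_mul_le_mul_right this hpr
  have m4 : 10000 * D.im - 43753 ≤ 1 := by
    have : (10000 * D.im - 43753) * (p:ℝ) ≤ 1 * p := by linarith
    exact le_of_mul_le_mul_right this hpr
  have := norm_le_of_parts (w := D - ⟨-16253 / 10000, 43753 / 10000⟩) (e := 1 / 10000)
    (by rw [Complex.sub_re, abs_le]; constructor <;> simp only <;> linarith)
    (by rw [Complex.sub_im, abs_le]; constructor <;> simp only <;> linarith)
  linarith

lemma F1_bb_near {q : ℂ} (h : InW q) : ‖F1 bb q - F1 bb cc‖ ≤ 1 / 10000 := by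
  have hconv : Convex ℝ (Metric.closedBall (0:ℂ) (6357 / 10000)) := convex_closedBall _ _
  have hb : ∀ z ∈ Metric.closedBall (0:ℂ) (6357 / 10000),
      HasDerivWithinAt (F1 bb) (F2 bb z) (Metric.closedBall (0:ℂ) (6357 / 10000)) z := by
    intro z hz
    rw [mem_closedBall_zero_iff] at hz
    exact (hasDerivAt_F1 bb_le (lt_of_le_of_lt hz (by norm_num))).hasDerivWithinAt
  have hb2 : ∀ z ∈ Metric.closedBall (0:ℂ) (6357 / 10000), ‖F2 bb z‖ ≤ 42 := by
    intro z hz
    rw [mem_closedBall_zero_iff] at hz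
    have h1 := norm_F2_le bb_le (lt_of_le_of_lt hz (by norm_num : (6357 / 10000 : ℝ) < 1))
    refine h1.trans ?_
    have h2 : (3643 / 10000 : ℝ) ^ 3 ≤ (1 - ‖z‖) ^ 3 :=
      pow_le_pow_left₀ (by norm_num) (by linarith) 3
    calc 2 / (1 - ‖z‖) ^ 3 ≤ 2 / (3643 / 10000 : ℝ) ^ 3 :=
          div_le_div_of_nonneg_left (by norm_num) (by norm_num) h2
      _ ≤ 42 := by norm_num
  have := hconv.norm_image_sub_le_of_norm_hasDerivWithin_le hb hb2
    (mem_closedBall_zero_iff.2 norm_cc) (mem_closedBall_zero_iff.2 h.norm_le)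
  refine this.trans ?_
  have h3 := h.near
  calc 42 * ‖q - cc‖ ≤ 42 * (2 / 10 ^ 17) := mul_le_mul_of_nonneg_left h3 (by norm_num)
    _ ≤ _ := by norm_num

lemma F1_diff {q : ℂ} (h : InW q) {a : ℕ → ℝ} (h0 : a 0 = 1) (ha : ∀ k, |a k| ≤ 1)
    (hF : F a q = 0) : ‖F1 a q - F1 bb q‖ ≤ 6 / 100 := by
  have hq : ‖q‖ < 1 := lt_of_le_of_lt h.norm_le (by norm_num)
  have hs1 := summable_F1 ha hq
  have hs2 := summable_F1 bb_le hq
  unfold F1
  rw [← hs1.tsum_sub hs2]
  -- majorant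
  have hg1 := hasSum_d1 (r := 7 / 10) (by norm_num) (by norm_num)
  have hg2 : HasSum (fun k : ℕ => if k ∈ Finset.range 65 then (1 / 10 ^ 10 : ℝ) else 0)
      (∑ k ∈ Finset.range 65, (1 / 10 ^ 10 : ℝ)) := by
    have h1 : HasSum (fun k : ℕ => if k ∈ Finset.range 65 then (1 / 10 ^ 10 : ℝ) else 0)
        (∑ k ∈ Finset.range 65, if k ∈ Finset.range 65 then (1 / 10 ^ 10 : ℝ) else 0) :=
      hasSum_sum_of_ne_finset_zero (fun b hb => if_neg hb)
    have h2 : (∑ k ∈ Finset.range 65, if k ∈ Finset.range 65 then (1 / 10 ^ 10 : ℝ) else 0) =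
        ∑ k ∈ Finset.range 65, (1 / 10 ^ 10 : ℝ) :=
      Finset.sum_congr rfl fun k hk => if_pos hk
    rwa [h2] at h1
  have hg := hg2.add (hg1.mul_left (2 * (22 / 10000)))
  have hbound : ∀ k : ℕ, ‖(a k : ℂ) * ((k : ℂ) * q ^ (k - 1)) - (bb k : ℂ) * ((k : ℂ) * q ^ (k - 1))‖ ≤
      (if k ∈ Finset.range 65 then (1 / 10 ^ 10 : ℝ) else 0) +
        2 * (22 / 10000) * ((k:ℝ) * (7 / 10) ^ (k - 1)) := by
    intro k
    rw [← sub_mul, ← Complex.ofReal_sub, norm_mul, Complex.norm_real, Real.norm_eq_abs, norm_mul,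
      norm_pow, Complex.norm_natCast]
    have hqk : ‖q‖ ^ (k - 1) ≤ (6357 / 10000 : ℝ) ^ (k - 1) :=
      pow_le_pow_left₀ (norm_nonneg _) h.norm_le _
    have hk0 : (0:ℝ) ≤ k := Nat.cast_nonneg k
    by_cases hk : k < 65
    · rw [if_pos (Finset.mem_range.2 hk)]
      have hpos : 0 ≤ 2 * (22 / 10000) * ((k:ℝ) * (7 / 10) ^ (k - 1)) := by positivity
      cases k with
      | zero => simp
      | succ j =>
        have hc := h.coef h0 ha hF j (by omega)
        have hbj : bb (j + 1) = ((sgns.getD j 0 : ℤ) : ℝ) := by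
          unfold bb; rw [List.getD_cons_succ]
        rw [hbj]
        have e1 : |a (j + 1) - ((sgns.getD j 0 : ℤ) : ℝ)| * (((j + 1 : ℕ) : ℝ) * ‖q‖ ^ (j + 1 - 1)) ≤
            1 / 10 ^ 10 := by
          have hA := abs_nonneg (a (j + 1) - ((sgns.getD j 0 : ℤ) : ℝ))
          rw [Nat.add_sub_cancel] at hqk ⊢
          have e2 : |a (j + 1) - ((sgns.getD j 0 : ℤ) : ℝ)| * (((j + 1 : ℕ) : ℝ) * ‖q‖ ^ j) ≤
              |a (j + 1) - ((sgns.getD j 0 : ℤ) : ℝ)| *
                (((j:ℝ) + 1) * (6357 / 10000) ^ (j + 1)) * (10000 / 6357) := by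
            have e3 : |a (j + 1) - ((sgns.getD j 0 : ℤ) : ℝ)| *
                (((j:ℝ) + 1) * (6357 / 10000) ^ (j + 1)) * (10000 / 6357) =
                |a (j + 1) - ((sgns.getD j 0 : ℤ) : ℝ)| * (((j:ℝ) + 1) * (6357 / 10000) ^ j) := by
              rw [pow_succ]; ring
            rw [e3]
            push_cast
            exact mul_le_mul_of_nonneg_left (mul_le_mul_of_nonneg_left hqk (by positivity)) hA
          refine e2.trans ?_
          calc _ ≤ 5 / 10 ^ 12 * (10000 / 6357 : ℝ) :=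
                mul_le_mul_of_nonneg_right hc (by norm_num)
            _ ≤ _ := by norm_num
        linarith
    · rw [if_neg (by rw [Finset.mem_range]; exact hk), zero_add]
      have e1 : |a k - bb k| ≤ 2 := by
        have e2 := abs_le.1 (ha k)
        have e3 := abs_le.1 (bb_le k)
        rw [abs_le]
        constructor <;> linarith [e2.1, e2.2, e3.1, e3.2]
      have e4 : (6357 / 10000 : ℝ) ^ (k - 1) ≤ 22 / 10000 * (7 / 10) ^ (k - 1) := by
        have e5 : (6357 / 10000 : ℝ) = 6357 / 7000 * (7 / 10) := by norm_num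
        rw [e5, mul_pow]
        refine mul_le_mul_of_nonneg_right ?_ (by positivity)
        calc (6357 / 7000 : ℝ) ^ (k - 1) ≤ (6357 / 7000 : ℝ) ^ 64 :=
              pow_le_pow_of_le_one (by norm_num) (by norm_num) (by omega)
          _ ≤ 22 / 10000 := by norm_num
      calc |a k - bb k| * (k * ‖q‖ ^ (k - 1)) ≤ 2 * (k * (22 / 10000 * (7 / 10) ^ (k - 1))) := by
            refine mul_le_mul e1 ?_ (by positivity) (by norm_num)
            exact mul_le_mul_of_nonneg_left (hqk.trans e4) hk0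
        _ = _ := by ring
  refine (tsum_of_norm_bounded hg hbound).trans ?_
  rw [Finset.sum_const, Finset.card_range]
  norm_num

lemma F1_close {q : ℂ} (h : InW q) {a : ℕ → ℝ} (h0 : a 0 = 1) (ha : ∀ k, |a k| ≤ 1)
    (hF : F a q = 0) : ‖F1 a q - ⟨-16253 / 10000, 43753 / 10000⟩‖ ≤ 7 / 100 := by
  have h1 := F1_diff h h0 ha hF
  have h2 := F1_bb_near h
  have h3 := F1_bb_center
  calc ‖F1 a q - ⟨-16253 / 10000, 43753 / 10000⟩‖
      = ‖(F1 a q - F1 bb q) + (F1 bb q - F1 bb cc) +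
        (F1 bb cc - ⟨-16253 / 10000, 43753 / 10000⟩)‖ := by congr 1; ring
    _ ≤ ‖F1 a q - F1 bb q‖ + ‖F1 bb q - F1 bb cc‖ + ‖F1 bb cc - ⟨-16253 / 10000, 43753 / 10000⟩‖ :=
        norm_add₃_le
    _ ≤ _ := by linarith

end Pool.Agent.R222.Mand
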