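import Mathlib
import Pool.Agent.R222.Mand.LocalC

set_option autoImplicit false

open Set Filter Topology

namespace Pool.Agent.R222.Mand

lemma norm_F2_window {q : ℂ} (h : InW q) {a : ℕ → ℝ} (ha : ∀ k, |a k| ≤ 1) : ‖F2 a q‖ ≤ 42 := by
  have h1 := norm_F2_le ha (lt_of_le_of_lt h.norm_le (by norm_num : (6357 / 10000 : ℝ) < 1))
  refine h1.trans ?_
  have h2 : (3643 / 10000 : ℝ) ^ 3 ≤ (1 - ‖q‖) ^ 3 :=
    pow_le_pow_left₀ (by norm_num) (by linarith [h.norm_le]) 3
  calc 2 / (1 - ‖q‖) ^ 3 ≤ 2 / (3643 / 10000 : ℝ) ^ 3 :=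
        div_le_div_of_nonneg_left (by norm_num) (by norm_num) h2
    _ ≤ 42 := by norm_num

/-- Structure of the minimisers in the window. -/
lemma struct {q : ℂ} (h : InW q) {a : ℕ → ℝ} (h0 : a 0 = 1) (ha : ∀ k, |a k| ≤ 1)
    (hF : F a q = 0)
    (hmin : ∀ᶠ z in 𝓝 q, ∀ b : ℕ → ℝ, b 0 = a 0 → (∀ k, |b k| ≤ 1) → F b z = 0 → ‖q‖ ≤ ‖z‖) :
    F1 a q ≠ 0 ∧ q ≠ 0 ∧ ∀ k : ℕ, 1 ≤ k → (F1 a q / q ^ (k - 1)).re ≠ 0 ∧
      (0 < (F1 a q / q ^ (k - 1)).re → a k = 1) ∧ ((F1 a q / q ^ (k - 1)).re < 0 → a k = -1) := by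
  have hc := F1_close h h0 ha hF
  have hre := (Complex.abs_re_le_norm _).trans hc
  have him := (Complex.abs_im_le_norm _).trans hc
  rw [Complex.sub_re, abs_le] at hre
  rw [Complex.sub_im, abs_le] at him
  simp only at hre him
  set D := F1 a q with hDdef
  obtain ⟨hre1, hre2⟩ := hre
  obtain ⟨him1, him2⟩ := him
  have hD : D ≠ 0 := by
    intro h0
    rw [h0, Complex.zero_im] at him1
    norm_num at him1
  obtain ⟨w1, w2, w3, w4, w5⟩ := id h
  norm_num at w2 w3 w4 w5 hre1 hre2 him1 him2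
  have hq0 : q ≠ 0 := by
    rintro rfl
    rw [Complex.zero_im] at w4
    norm_num at w4
  have hq1 : ‖q‖ < 1 := lt_of_le_of_lt h.norm_le (by norm_num)
  have hnq : 0 < Complex.normSq q := Complex.normSq_pos.2 hq0
  have hDn : 43 / 10 ≤ ‖D‖ := by
    have := Complex.abs_im_le_norm D
    have h2 := le_abs_self D.im
    linarith
  have hdeg4 : (q * F2 a q / D).re < 7 := by
    have h1 : (q * F2 a q / D).re ≤ ‖q * F2 a q / D‖ := Complex.re_le_norm _
    refine lt_of_le_of_lt h1 ?_
    rw [norm_div, norm_mul, div_lt_iff₀ (by linarith)]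
    have h2 : ‖q‖ * ‖F2 a q‖ ≤ 6357 / 10000 * 42 :=
      mul_le_mul h.norm_le (norm_F2_window h ha) (norm_nonneg _) (by norm_num)
    linarith
  refine ⟨hD, hq0, fun k hk => ?_⟩
  refine bangbang ha hq0 hq1 hF hD hmin hk (fun hz => ?_)
  rcases Nat.lt_or_ge k 4 with hk4 | hk4
  · exfalso
    have hx : 0.3787 ≤ q.re := by norm_num; linarith
    have hx2 : q.re ≤ 0.3788 := by norm_num; linarith
    have hy : 0.5104 ≤ q.im := by norm_num; linarith
    have hy2 : q.im ≤ 0.5105 := by norm_num; linarith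
    have hk3 : k = 1 ∨ k = 2 ∨ k = 3 := by omega
    rcases hk3 with rfl | rfl | rfl
    · rw [Nat.sub_self, pow_zero, div_one] at hz
      linarith
    · rw [show 2 - 1 = 1 from rfl, pow_one, Complex.div_re, ← add_div,
        div_eq_zero_iff] at hz
      rcases hz with hz | hz
      · norm_num at hx hx2 hy hy2
        nlinarith
      · exact hnq.ne' hz
    · rw [show 3 - 1 = 2 from rfl, Complex.div_re, ← add_div, div_eq_zero_iff] at hz
      rcases hz with hz | hz
      · have e1 : (q ^ 2).re = q.re ^ 2 - q.im ^ 2 := by rw [pow_two, Complex.mul_re]; ring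
        have e2 : (q ^ 2).im = 2 * (q.re * q.im) := by rw [pow_two, Complex.mul_im]; ring
        rw [e1, e2] at hz
        norm_num at hx hx2 hy hy2
        have f1 : q.re ^ 2 ≤ (3788 / 10000 : ℝ) ^ 2 := pow_le_pow_left₀ (by linarith) (by linarith) 2
        have f2 : (5104 / 10000 : ℝ) ^ 2 ≤ q.im ^ 2 := pow_le_pow_left₀ (by norm_num) (by linarith) 2
        have f3 : (3787 / 10000 : ℝ) * (5104 / 10000) ≤ q.re * q.im :=
          mul_le_mul (by linarith) (by linarith) (by norm_num) (by linarith)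
        have f4 : q.re ^ 2 - q.im ^ 2 ≤ 0 := by norm_num at f1 f2; linarith
        have f5 : 0 ≤ D.re * (q.re ^ 2 - q.im ^ 2) := mul_nonneg_of_nonpos_of_nonpos (by linarith) f4
        have f6 : 0 < D.im * (2 * (q.re * q.im)) := by
          have : 0 < q.re * q.im := lt_of_lt_of_le (by norm_num) f3
          have h9 : 0 < D.im := by linarith
          positivity
        linarith
      · rw [map_pow] at hz
        exact (pow_ne_zero 2 hnq.ne') hz
  · have : (4:ℝ) ≤ k := by exact_mod_cast hk4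
    linarith

/-- In the window a `±1` coefficient sequence starts with the list. -/
lemma first_coef {q : ℂ} (h : InW q) {a : ℕ → ℝ} (h0 : a 0 = 1) (ha : ∀ k, |a k| ≤ 1)
    (hF : F a q = 0) (hpm : ∀ k, 1 ≤ k → a k = 1 ∨ a k = -1) (j : ℕ) (hj : j < 64) :
    a (j + 1) = (sgns.getD j 0 : ℤ) := by
  have hc := h.coef h0 ha hF j hj
  have hlow : (10 / 10 ^ 12 : ℝ) < 2 * (((j:ℝ) + 1) * (6357 / 10000) ^ (j + 1)) := by
    -- the worst case is `j = 63`
    have hmono : (64:ℝ) * (6357 / 10000) ^ 64 ≤ ((j:ℝ) + 1) * (6357 / 10000) ^ (j + 1) ∨ j < 2 := by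
      by_cases hj2 : j < 2
      · exact Or.inr hj2
      left
      push Not at hj2
      have key : ∀ n : ℕ, 3 ≤ n → ∀ m : ℕ, ((n + m : ℕ):ℝ) * (6357 / 10000) ^ (n + m) ≤
          (n:ℝ) * (6357 / 10000) ^ n := by
        intro n hn m
        induction m with
        | zero => simp
        | succ m ih =>
          refine le_trans ?_ ih
          have hn' : (3:ℝ) ≤ n := by exact_mod_cast hn
          have hm' : (0:ℝ) ≤ m := Nat.cast_nonneg m
          rw [show n + (m + 1) = n + m + 1 by ring, pow_succ]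
          push_cast
          have hp : (0:ℝ) < (6357 / 10000 : ℝ) ^ (n + m) := by positivity
          nlinarith
      have := key (j + 1) (by omega) (63 - j)
      rw [show j + 1 + (63 - j) = 64 by omega] at this
      push_cast at this
      exact this
    have h64 : (10 / 10 ^ 12 : ℝ) < 2 * (64 * (6357 / 10000) ^ 64) := by norm_num
    rcases hmono with h | h
    · linarith
    · have : j = 0 ∨ j = 1 := by omega
      rcases this with rfl | rfl <;> norm_num
  have hne : ¬ (2 ≤ |a (j + 1) - (sgns.getD j 0 : ℤ)|) := by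
    intro hcon
    have hp : (0:ℝ) ≤ ((j:ℝ) + 1) * (6357 / 10000) ^ (j + 1) := by positivity
    have := mul_le_mul_of_nonneg_right hcon hp
    linarith
  rcases hpm (j + 1) (by omega) with h1 | h1
  · rcases sgns_pm j hj with h2 | h2
    · rw [h1, h2]; simp
    · exfalso; apply hne; rw [h1, h2]; norm_num
  · rcases sgns_pm j hj with h2 | h2
    · exfalso; apply hne; rw [h1, h2]; norm_num
    · rw [h1, h2]; simp

end Pool.Agent.R222.Mand
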