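import Mathlib
import Pool.Agent.R222.Mand.Defs
import Pool.Agent.R222.Mand.Attractor
import Pool.Agent.R222.Mand.Enc
import Pool.Agent.R222.Mand.Struct
import Pool.Agent.R222.Mand.RootData

set_option autoImplicit false

open Set Filter Topology

namespace Pool.Agent.R222.Mand

lemma inW_of {q : ℂ} (h : RealSol q) (hre : 0 ≤ q.re) (him : 0 < q.im)
    (hn2 : ‖q‖ ≤ 635606390391455493 / 10 ^ 18) :
    InW q := by
  obtain ⟨h1, h2, h3⟩ := window h hre him hn2
  obtain ⟨h4, h5⟩ := window_im him hn2 h1 h2 h3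
  exact ⟨hn2, h2, h3, h4, h5⟩

/-- There is a solution in the window. -/
lemma exists_inW : ∃ q, InW q ∧ RealSol q := by
  obtain ⟨z, hz, hcz⟩ := root_of_check (by norm_num) (by norm_num) rootList_ok
  have hsol : RealSol z := by
    refine ⟨fun k => ((rootList.getD k 0 : ℤ) : ℝ), ?_, fun k => ?_, ?_⟩
    · change ((rootList.getD 0 0 : ℤ) : ℝ) = 1
      rw [rootList_head]; simp
    · by_cases hk : k < rootList.length
      · have hm : rootList.getD k 0 ∈ rootList := by
          rw [List.getD_eq_getElem _ _ hk]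
          exact List.getElem_mem hk
        rcases rootList_mem _ hm with h | h <;> simp only [h] <;> simp
      · have h0 : rootList.getD k 0 = 0 := List.getD_eq_default _ _ (not_lt.1 hk)
        simp only [h0]
        simp
    · rw [← hz]
      refine tsum_congr fun k => ?_
      push_cast
      rfl
  set c0 : ℂ := (((378777074017180905751270890866 : ℤ) : ℂ) +
    ((510414940715334451548669464157 : ℤ) : ℂ) * Complex.I) /
      ((1000000000000000000000000000000 : ℤ) : ℂ) with hc0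
  have hd : ‖c0 - z‖ ≤ 50 / 10 ^ 30 := by
    rw [le_div_iff₀ (by norm_num)]
    have : ((1000000000000000000000000000000 : ℤ) : ℝ) = 10 ^ 30 := by norm_num
    rw [this] at hcz
    simpa using hcz
  have hre0 : c0.re = 378777074017180905751270890866 / 10 ^ 30 := by
    have : c0 = ⟨378777074017180905751270890866 / 10 ^ 30,
        510414940715334451548669464157 / 10 ^ 30⟩ := by
      rw [hc0, div_eq_iff (by norm_num)]
      apply Complex.ext <;> simp <;> norm_num
    rw [this]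
  have him0 : c0.im = 510414940715334451548669464157 / 10 ^ 30 := by
    have : c0 = ⟨378777074017180905751270890866 / 10 ^ 30,
        510414940715334451548669464157 / 10 ^ 30⟩ := by
      rw [hc0, div_eq_iff (by norm_num)]
      apply Complex.ext <;> simp <;> norm_num
    rw [this]
  have hc0n : ‖c0‖ ≤ 635606390391455492900 / 10 ^ 21 := by
    have : ‖c0‖ ^ 2 ≤ (635606390391455492900 / 10 ^ 21 : ℝ) ^ 2 := by
      rw [← Complex.normSq_eq_norm_sq, Complex.normSq_apply, hre0, him0]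
      norm_num
    exact (pow_le_pow_iff_left₀ (norm_nonneg _) (by norm_num) two_ne_zero).1 this
  have hzn : ‖z‖ ≤ 635606390391455493 / 10 ^ 18 := by
    have : ‖z‖ ≤ ‖c0‖ + ‖c0 - z‖ := by
      calc ‖z‖ = ‖c0 - (c0 - z)‖ := by congr 1; ring
        _ ≤ _ := norm_sub_le _ _
    refine this.trans ?_
    refine (add_le_add hc0n hd).trans (by norm_num)
  have hre := (Complex.abs_re_le_norm _).trans hd
  have him := (Complex.abs_im_le_norm _).trans hd
  rw [Complex.sub_re, abs_le, hre0] at hre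
  rw [Complex.sub_im, abs_le, him0] at him
  norm_num at hre him
  refine ⟨z, inW_of hsol (by linarith [hre.2]) (by linarith [him.2]) hzn, hsol⟩

/-- the compact set of pairs (coefficients, zero in the window) -/
def pairs : Set ((ℕ → ℝ) × ℂ) :=
  {p | (∀ k, p.1 k ∈ Icc (-1:ℝ) 1) ∧ p.1 0 = 1 ∧ InW p.2 ∧ F p.1 p.2 = 0}

lemma isClosed_InW : IsClosed {q | InW q} := by
  unfold InW
  simp only [Set.ofPred_and]
  refine (isClosed_le continuous_norm continuous_const).inter ((isClosed_le continuous_const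
    Complex.continuous_re).inter ((isClosed_le Complex.continuous_re continuous_const).inter
    ((isClosed_le continuous_const Complex.continuous_im).inter
    (isClosed_le Complex.continuous_im continuous_const))))

lemma isCompact_InW : IsCompact {q | InW q} := by
  refine (isCompact_closedBall (0:ℂ) 1).of_isClosed_subset isClosed_InW fun q hq => ?_
  rw [mem_closedBall_zero_iff]
  exact (InW.norm_le hq).trans (by norm_num)

lemma isCompact_pairs : IsCompact pairs := by
  set T : Set ((ℕ → ℝ) × ℂ) := ({a : ℕ → ℝ | (∀ k, a k ∈ Icc (-1:ℝ) 1)} ∩ {a | a 0 = 1}) ×ˢ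
    {q | InW q} with hT
  have hc1 : IsCompact {a : ℕ → ℝ | ∀ k, a k ∈ Icc (-1:ℝ) 1} := by
    have := isCompact_univ_pi (fun _ : ℕ => isCompact_Icc (a := (-1:ℝ)) (b := 1))
    have e : {a : ℕ → ℝ | ∀ k, a k ∈ Icc (-1:ℝ) 1} = Set.pi univ fun _ : ℕ => Icc (-1:ℝ) 1 := by
      ext a
      simp only [Set.mem_pi, Set.mem_univ, true_imp_iff]
      rfl
    rwa [e]
  have hTc : IsCompact T :=
    (hc1.inter_right (isClosed_eq (continuous_apply 0) continuous_const)).prod isCompact_InW
  have hcont : ContinuousOn (fun p : (ℕ → ℝ) × ℂ => F p.1 p.2) T := by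
    unfold F
    refine continuousOn_tsum (u := fun k : ℕ => (6357 / 10000 : ℝ) ^ k) (fun k => ?_)
      (summable_geometric_of_lt_one (by norm_num) (by norm_num)) fun k p hp => ?_
    · refine Continuous.continuousOn ?_
      exact (Complex.continuous_ofReal.comp ((continuous_apply k).comp continuous_fst)).mul
        (continuous_snd.pow k)
    · obtain ⟨⟨h1, _⟩, h2⟩ := hp
      refine (norm_coef (fun k => abs_le.2 (h1 k)) k _).trans ?_
      rw [norm_pow]
      exact pow_le_pow_left₀ (norm_nonneg _) (InW.norm_le h2) _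
  have h1 : pairs = T ∩ (fun p : (ℕ → ℝ) × ℂ => F p.1 p.2) ⁻¹' {0} := by
    ext p
    simp only [pairs, hT, Set.mem_inter_iff, Set.mem_prod, Set.mem_preimage, Set.mem_singleton_iff]
    constructor
    · rintro ⟨a, b, c, d⟩; exact ⟨⟨⟨a, b⟩, c⟩, d⟩
    · rintro ⟨⟨⟨a, b⟩, c⟩, d⟩; exact ⟨a, b, c, d⟩
  rw [h1]
  exact hTc.of_isClosed_subset
    (hcont.preimage_isClosed_of_isClosed hTc.isClosed isClosed_singleton) inter_subset_left

/-- reduction to the first quadrant -/
lemma to_quadrant {q : ℂ} (h : RealSol q) (him : q.im ≠ 0) :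
    ∃ q', RealSol q' ∧ 0 ≤ q'.re ∧ 0 < q'.im ∧ ‖q'‖ = ‖q‖ ∧ q'.re = |q.re| ∧ q'.im = |q.im| := by
  rcases le_total 0 q.re with h1 | h1 <;> rcases lt_or_gt_of_ne him with h2 | h2
  · refine ⟨starRingEnd ℂ q, h.conj, by simpa using h1, by simpa using h2, RCLike.norm_conj _, ?_, ?_⟩
    · rw [abs_of_nonneg h1]; simp
    · rw [abs_of_neg h2]; simp
  · refine ⟨q, h, h1, h2, rfl, (abs_of_nonneg h1).symm, (abs_of_pos h2).symm⟩
  · refine ⟨-q, h.neg, by simpa using h1, by simpa using h2, norm_neg _, ?_, ?_⟩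
    · rw [abs_of_nonpos h1]; simp
    · rw [abs_of_neg h2]; simp
  · refine ⟨-(starRingEnd ℂ q), h.conj.neg, by simpa using h1, by simpa using h2,
      by rw [norm_neg, RCLike.norm_conj], ?_, ?_⟩
    · rw [abs_of_nonpos h1]; simp
    · rw [abs_of_pos h2]; simp

/-- The least modulus exists. -/
lemma exists_min : ∃ (a : ℕ → ℝ) (q : ℂ), a 0 = 1 ∧ (∀ k, |a k| ≤ 1) ∧ F a q = 0 ∧ InW q ∧
    ∀ z, RealSol z → z.im ≠ 0 → ‖q‖ ≤ ‖z‖ := by
  obtain ⟨q0, hq0, a0, h1, h2, h3⟩ := exists_inW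
  have hne : pairs.Nonempty := ⟨(a0, q0), fun k => abs_le.1 (h2 k), h1, hq0, h3⟩
  obtain ⟨p, ⟨hp1, hp2, hp3, hp4⟩, hmin⟩ := isCompact_pairs.exists_isMinOn hne
    (f := fun p : (ℕ → ℝ) × ℂ => ‖p.2‖) (continuous_norm.comp continuous_snd).continuousOn
  refine ⟨p.1, p.2, hp2, fun k => abs_le.2 (hp1 k), hp4, hp3, fun z hz him => ?_⟩
  obtain ⟨q', hq', k1, k2, k3, _, _⟩ := to_quadrant hz him
  rw [← k3]
  rcases le_total ‖q'‖ (635606390391455493 / 10 ^ 18) with h | h
  · have hW := inW_of hq' k1 k2 h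
    obtain ⟨b, b0, b1, b2⟩ := hq'
    exact hmin (show (b, q') ∈ pairs from ⟨fun k => abs_le.1 (b1 k), b0, hW, b2⟩)
  · exact hp3.1.trans h

/-- local minimality in the form needed -/
lemma local_min {q : ℂ} (him : q.im ≠ 0) (hq : ∀ z, RealSol z → z.im ≠ 0 → ‖q‖ ≤ ‖z‖) {a : ℕ → ℝ}
    (h0 : a 0 = 1) :
    ∀ᶠ z in 𝓝 q, ∀ b : ℕ → ℝ, b 0 = a 0 → (∀ k, |b k| ≤ 1) → F b z = 0 → ‖q‖ ≤ ‖z‖ := by
  have h1 : ∀ᶠ z : ℂ in 𝓝 q, z.im ≠ 0 := Complex.continuous_im.continuousAt.eventually_ne him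
  filter_upwards [h1] with z hz b hb0 hb1 hb2
  exact hq z ⟨b, by rw [hb0, h0], hb1, hb2⟩ hz

end Pool.Agent.R222.Mand
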