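import Mathlib
import Pool.Agent.R222.Mand.Minim

set_option autoImplicit false

open Set Filter Topology

namespace Pool.Agent.R222.Mand

/-- the quantity `∑ j a_j q^j` -/
noncomputable def AA (a : ℕ → ℝ) (q : ℂ) : ℂ := ∑' j : ℕ, (j : ℂ) * (a j : ℂ) * q ^ j

/-- the extremal rule -/
def Rule (a : ℕ → ℝ) (q : ℂ) : Prop :=
  ∀ k : ℕ, 1 ≤ k → (q ^ k / AA a q).re ≠ 0 ∧
    a k = ((SignType.sign (q ^ k / AA a q).re : SignType) : ℝ)

lemma AA_eq {a : ℕ → ℝ} (q : ℂ) : AA a q = q * F1 a q := by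
  unfold AA F1
  rw [← tsum_mul_left]
  refine tsum_congr fun j => ?_
  cases j with
  | zero => simp
  | succ j =>
    rw [Nat.add_sub_cancel, pow_succ]
    ring

lemma rule_of_struct {a : ℕ → ℝ} {q : ℂ} (h1 : F1 a q ≠ 0) (h2 : q ≠ 0)
    (h : ∀ k : ℕ, 1 ≤ k → (F1 a q / q ^ (k - 1)).re ≠ 0 ∧
      (0 < (F1 a q / q ^ (k - 1)).re → a k = 1) ∧
      ((F1 a q / q ^ (k - 1)).re < 0 → a k = -1)) : Rule a q := by
  intro k hk
  obtain ⟨g1, g2, g3⟩ := h k hk
  have e1 : q ^ k / AA a q = (F1 a q / q ^ (k - 1))⁻¹ := by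
    rw [AA_eq, inv_div]
    have : q ^ k = q * q ^ (k - 1) := by rw [← pow_succ', Nat.sub_add_cancel hk]
    rw [this, mul_div_mul_left _ _ h2]
  have hw : F1 a q / q ^ (k - 1) ≠ 0 := div_ne_zero h1 (pow_ne_zero _ h2)
  have hn : 0 < Complex.normSq (F1 a q / q ^ (k - 1)) := Complex.normSq_pos.2 hw
  rw [e1, Complex.inv_re]
  rcases lt_or_gt_of_ne g1 with h | h
  · have h3 : (F1 a q / q ^ (k - 1)).re / Complex.normSq (F1 a q / q ^ (k - 1)) < 0 :=
      div_neg_of_neg_of_pos h hn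
    exact ⟨h3.ne, by rw [sign_neg h3, g3 h]; simp⟩
  · have h3 : 0 < (F1 a q / q ^ (k - 1)).re / Complex.normSq (F1 a q / q ^ (k - 1)) :=
      div_pos h hn
    exact ⟨h3.ne', by rw [sign_pos h3, g2 h]; simp⟩

lemma AA_neg (a : ℕ → ℝ) (q : ℂ) : AA (fun k => (-1) ^ k * a k) (-q) = AA a q := by
  unfold AA
  refine tsum_congr fun j => ?_
  push_cast
  rw [neg_pow q j]
  have : ((-1:ℂ) ^ j) * ((-1) ^ j) = 1 := by rw [← mul_pow]; simp
  calc (j:ℂ) * ((-1:ℂ) ^ j * a j) * ((-1) ^ j * q ^ j)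
      = ((-1:ℂ) ^ j * (-1) ^ j) * (j * a j * q ^ j) := by ring
    _ = _ := by rw [this, one_mul]

lemma AA_conj (a : ℕ → ℝ) (q : ℂ) : AA a (starRingEnd ℂ q) = starRingEnd ℂ (AA a q) := by
  unfold AA
  rw [Complex.conj_tsum]
  refine tsum_congr fun j => ?_
  rw [map_mul, map_mul, map_pow, Complex.conj_ofReal, map_natCast]

lemma Rule.neg {a : ℕ → ℝ} {q : ℂ} (h : Rule a q) : Rule (fun k => (-1) ^ k * a k) (-q) := by
  intro k hk
  obtain ⟨h1, h2⟩ := h k hk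
  rw [AA_neg, neg_pow q k]
  rcases neg_one_pow_eq_or ℝ k with hs | hs
  · have hs' : (-1:ℂ) ^ k = 1 := by
      have := congrArg (fun x : ℝ => (x:ℂ)) hs
      push_cast at this
      exact this
    rw [hs', one_mul]
    refine ⟨h1, ?_⟩
    simp only [hs, one_mul]
    exact h2
  · have hs' : (-1:ℂ) ^ k = -1 := by
      have := congrArg (fun x : ℝ => (x:ℂ)) hs
      push_cast at this
      exact this
    rw [hs', neg_one_mul, neg_div, Complex.neg_re]
    refine ⟨neg_ne_zero.2 h1, ?_⟩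
    simp only [hs]
    rw [Left.sign_neg, h2]
    simp

lemma Rule.conj {a : ℕ → ℝ} {q : ℂ} (h : Rule a q) : Rule a (starRingEnd ℂ q) := by
  intro k hk
  obtain ⟨h1, h2⟩ := h k hk
  have e : (starRingEnd ℂ q ^ k / AA a (starRingEnd ℂ q)).re = (q ^ k / AA a q).re := by
    rw [AA_conj, ← map_pow, ← map_div₀, Complex.conj_re]
  rw [e]
  exact ⟨h1, h2⟩

/-- `a` is a sequence of real coefficients in `[-1,1]` with `a 0 = 1` whose power series vanishes
at `q`. -/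
def Rep (q : ℂ) (a : ℕ → ℝ) : Prop :=
  a 0 = 1 ∧ (∀ k, |a k| ≤ 1) ∧ ∑' k, (a k : ℂ) * q ^ k = 0

lemma Rep.neg {q : ℂ} {a : ℕ → ℝ} (h : Rep q a) : Rep (-q) (fun k => (-1) ^ k * a k) := by
  obtain ⟨h0, h1, h2⟩ := h
  refine ⟨by simp [h0], fun k => ?_, ?_⟩
  · rw [abs_mul, abs_pow, abs_neg, abs_one, one_pow, one_mul]; exact h1 k
  · rw [← h2]
    refine tsum_congr fun k => ?_
    push_cast
    rw [neg_pow q k]
    have : ((-1:ℂ) ^ k) * ((-1) ^ k) = 1 := by rw [← mul_pow]; simp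
    calc (-1:ℂ) ^ k * a k * ((-1) ^ k * q ^ k) = ((-1:ℂ) ^ k * (-1) ^ k) * (a k * q ^ k) := by ring
      _ = _ := by rw [this, one_mul]

lemma Rep.conj {q : ℂ} {a : ℕ → ℝ} (h : Rep q a) : Rep (starRingEnd ℂ q) a := by
  obtain ⟨h0, h1, h2⟩ := h
  refine ⟨h0, h1, ?_⟩
  have h3 : starRingEnd ℂ (∑' k, (a k : ℂ) * q ^ k) = 0 := by rw [h2, map_zero]
  rw [Complex.conj_tsum] at h3
  rw [← h3]
  refine tsum_congr fun k => ?_
  rw [map_mul, map_pow, Complex.conj_ofReal]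

lemma Rep.realSol {q : ℂ} {a : ℕ → ℝ} (h : Rep q a) : RealSol q := ⟨a, h⟩

lemma twist_twist (a : ℕ → ℝ) : (fun k => (-1:ℝ) ^ k * ((-1) ^ k * a k)) = a := by
  funext k
  have : ((-1:ℝ) ^ k) * ((-1) ^ k) = 1 := by rw [← mul_pow]; simp
  rw [← mul_assoc, this, one_mul]

/-- the least modulus -/
noncomputable def rho : ℝ := ‖(exists_min.choose_spec.choose : ℂ)‖

lemma rho_spec : ∃ (a : ℕ → ℝ) (q : ℂ), Rep q a ∧ InW q ∧ ‖q‖ = rho ∧
    ∀ z, RealSol z → z.im ≠ 0 → rho ≤ ‖z‖ := by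
  obtain ⟨h0, h1, h2, h3, h4⟩ := exists_min.choose_spec.choose_spec
  exact ⟨exists_min.choose, exists_min.choose_spec.choose, ⟨h0, h1, h2⟩, h3, rfl, h4⟩

lemma InW.im_pos {q : ℂ} (h : InW q) : 0 < q.im := lt_of_lt_of_le (by norm_num) h.2.2.2.1

lemma rule_window {q : ℂ} {a : ℕ → ℝ} (h : Rep q a) (hW : InW q)
    (hmin : ∀ z, RealSol z → z.im ≠ 0 → ‖q‖ ≤ ‖z‖) : Rule a q := by
  obtain ⟨h0, h1, h2⟩ := h
  obtain ⟨g1, g2, g3⟩ := struct hW h0 h1 h2 (local_min hW.im_pos.ne' hmin h0)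
  exact rule_of_struct g1 g2 g3

lemma Rule.pm {a : ℕ → ℝ} {q : ℂ} (h : Rule a q) {k : ℕ} (hk : 1 ≤ k) : a k = 1 ∨ a k = -1 := by
  obtain ⟨h1, h2⟩ := h k hk
  rcases lt_or_gt_of_ne h1 with h | h
  · right; rw [h2, sign_neg h]; simp
  · left; rw [h2, sign_pos h]; simp

/-- quadrant reduction with coefficients -/
lemma quad {q : ℂ} {a : ℕ → ℝ} (h : Rep q a) (him : q.im ≠ 0) :
    ∃ (q' : ℂ) (a' : ℕ → ℝ), Rep q' a' ∧ 0 ≤ q'.re ∧ 0 < q'.im ∧ ‖q'‖ = ‖q‖ ∧
      q'.re = |q.re| ∧ q'.im = |q.im| ∧ (Rule a' q' → Rule a q) ∧ (0 < q.re → a' = a) := by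
  rcases le_total 0 q.re with h1 | h1 <;> rcases lt_or_gt_of_ne him with h2 | h2
  · refine ⟨starRingEnd ℂ q, a, h.conj, by simpa using h1, by simpa using h2,
      RCLike.norm_conj _, ?_, ?_, fun hr => ?_, fun _ => rfl⟩
    · rw [abs_of_nonneg h1]; simp
    · rw [abs_of_neg h2]; simp
    · have := hr.conj
      rwa [Complex.conj_conj] at this
  · exact ⟨q, a, h, h1, h2, rfl, (abs_of_nonneg h1).symm, (abs_of_pos h2).symm, id, fun _ => rfl⟩
  · refine ⟨-q, _, h.neg, by simpa using h1, by simpa using h2, norm_neg _, ?_, ?_,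
      fun hr => ?_, fun hc => absurd hc (not_lt.2 h1)⟩
    · rw [abs_of_nonpos h1]; simp
    · rw [abs_of_neg h2]; simp
    · have := hr.neg
      rwa [neg_neg, twist_twist] at this
  · refine ⟨-(starRingEnd ℂ q), _, h.conj.neg, by simpa using h1, by simpa using h2,
      by rw [norm_neg, RCLike.norm_conj], ?_, ?_, fun hr => ?_, fun hc => absurd hc (not_lt.2 h1)⟩
    · rw [abs_of_nonpos h1]; simp
    · rw [abs_of_pos h2]; simp
    · have := hr.neg
      rw [neg_neg, twist_twist] at this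
      have := this.conj
      rwa [Complex.conj_conj] at this

lemma rho_bounds : 635606390391455492 / 10 ^ 18 ≤ rho ∧ rho ≤ 635606390391455493 / 10 ^ 18 := by
  obtain ⟨a, q, hr, hW, hq, _⟩ := rho_spec
  have h1 := window hr.realSol (le_trans (by norm_num) hW.2.1) hW.im_pos hW.1
  rw [← hq]
  exact ⟨h1.1, hW.1⟩

/-- all representations of minimisers are extremal -/
lemma rule_all {q : ℂ} {a : ℕ → ℝ} (h : Rep q a) (him : q.im ≠ 0) (hq : ‖q‖ = rho) :
    Rule a q ∧ (0 < q.re → ∀ j < 64, a (j + 1) = (sgns.getD j 0 : ℤ)) := by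
  obtain ⟨_, _, _, _, _, hmin⟩ := rho_spec
  obtain ⟨q', a', h', k1, k2, k3, k4, k5, k6, k7⟩ := quad h him
  have hW : InW q' := inW_of h'.realSol k1 k2 (by rw [k3, hq]; exact rho_bounds.2)
  have hR : Rule a' q' := rule_window h' hW (by rw [k3, hq]; exact hmin)
  refine ⟨k6 hR, fun hre j hj => ?_⟩
  rw [← k7 hre]
  exact first_coef hW h'.1 h'.2.1 h'.2.2 (fun k hk => hR.pm hk) j hj

lemma rep_unique {q : ℂ} {a b : ℕ → ℝ} (h : Rep q a) (h' : Rep q b) (him : q.im ≠ 0)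
    (hq : ‖q‖ = rho) : a = b := by
  have hq1 : ‖q‖ < 1 := by rw [hq]; exact lt_of_le_of_lt rho_bounds.2 (by norm_num)
  have hc : Rep q (fun k => (a k + b k) / 2) := by
    refine ⟨by change (a 0 + b 0) / 2 = 1; rw [h.1, h'.1]; norm_num, fun k => ?_, ?_⟩
    · have e1 := abs_le.1 (h.2.1 k)
      have e2 := abs_le.1 (h'.2.1 k)
      rw [abs_le]
      constructor <;> linarith [e1.1, e1.2, e2.1, e2.2]
    · have s1 := summable_F h.2.1 hq1
      have s2 := summable_F h'.2.1 hq1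
      have e : ∀ k, (((a k + b k) / 2 : ℝ) : ℂ) * q ^ k =
          ((a k : ℂ) * q ^ k + (b k : ℂ) * q ^ k) * (1 / 2) := by
        intro k; push_cast; ring
      simp_rw [e]
      rw [tsum_mul_right, s1.tsum_add s2, h.2.2, h'.2.2]
      simp
  funext k
  rcases Nat.eq_zero_or_pos k with rfl | hk
  · rw [h.1, h'.1]
  have r1 := (rule_all h him hq).1.pm hk
  have r2 := (rule_all h' him hq).1.pm hk
  have r3 := (rule_all hc him hq).1.pm hk
  rcases r1 with r1 | r1 <;> rcases r2 with r2 | r2 <;> rw [r1, r2] at r3 ⊢ <;> norm_num at r3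

/-- a `±1` representation gives a point of the Mandelbrot set -/
lemma mem_of_rule {q : ℂ} {a : ℕ → ℝ} (h : Rep q a) (hR : Rule a q) (hq1 : ‖q‖ < 1) :
    q ∈ mandelbrotPairs := by
  classical
  refine mem_of_series hq1 (fun k => if a k = 1 then 1 else -1) (by simp [h.1]) (fun k => ?_) ?_
  · by_cases hk : a k = 1 <;> simp [hk]
  · rw [← h.2.2]
    refine tsum_congr fun k => ?_
    congr 1
    rcases Nat.eq_zero_or_pos k with rfl | hk
    · simp [h.1]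
    · rcases hR.pm hk with h1 | h1
      · simp [h1]
      · have : ¬ ((-1:ℝ) = 1) := by norm_num
        simp [h1, this]

lemma rep_of_mem {q : ℂ} (h : q ∈ mandelbrotPairs) : ∃ a, Rep q a := by
  obtain ⟨a, h0, h1, h2⟩ := exists_series h
  refine ⟨fun k => (a k : ℝ), by simp [h0], fun k => ?_, ?_⟩
  · rcases h1 k with h | h | h <;> simp [h]
  · rw [← h2]
    refine tsum_congr fun k => ?_
    push_cast
    rfl

end Pool.Agent.R222.Mand
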